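import Mathlib
import Pool.Agent.Helper77_TDG.Game

/-!
# Total domination game: definitions for the bound 9/13

`N v` is the set of targets of the player `v`, `U` the set of uncovered targets and `alive N U` the
set of players which still cover something.
-/

set_option linter.unusedSectionVars false

namespace Helper77.TDG

open Finset Classical

variable {V X : Type*} [Fintype V] [DecidableEq V] [DecidableEq X]

/-- Number of uncovered targets plus number of playable players. -/
def phi (N : V → Finset X) (U : Finset X) : ℕ := U.card + (alive N U).card

/-- The players which die when `v` is played (`v` included). -/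
def dying (N : V → Finset X) (U : Finset X) (v : V) : Finset V :=
  (alive N U).filter fun u => N u ∩ U ⊆ N v

/-- The gain of the move `v`. -/
def gain (N : V → Finset X) (U : Finset X) (v : V) : ℕ := (N v ∩ U).card + (dying N U v).card

/-- A set `C` of targets such that every player meeting it covers exactly two elements of it, and
which is connected. -/
def Fresh (N : V → Finset X) (C : Finset X) : Prop :=
  C.Nonempty ∧ (∀ v, (N v ∩ C).Nonempty → (N v ∩ C).card = 2) ∧
    ∀ D ⊆ C, D.Nonempty → (∀ v, (N v ∩ D).Nonempty → N v ∩ C ⊆ D) → D = C

/-- Dominator can open `C` with a surplus, or in such a way that after every tight answer of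
Staller (gain two) there is a move of gain at least five. -/
def WG (N : V → Finset X) (C : Finset X) : Prop :=
  ∃ v, (N v ∩ C).Nonempty ∧ (4 ≤ gain N C v ∨
    ∀ u, (N u ∩ (C \ N v)).Nonempty → gain N (C \ N v) u ≤ 2 →
      ∃ w, (N w ∩ ((C \ N v) \ N u)).Nonempty ∧ 5 ≤ gain N ((C \ N v) \ N u) w)

/-- Weight of the move `w` in the position `F` when a target is worth 12 and a player 15, only the
players of `P` being counted as dying. -/
def val (M : X → Finset V) (P : Finset X) (F : Finset V) (w : X) : ℕ :=
  12 * (M w ∩ F).card + 15 * (P.filter fun u => (M u ∩ F).Nonempty ∧ M u ∩ F ⊆ M w).card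

/-- There is a move with surplus `y`. -/
def Threat (M : X → Finset V) (P : Finset X) (y : ℕ) (F : Finset V) : Prop :=
  ∃ w ∈ P, 51 + y ≤ val M P F w

/-- A dual cluster from which Dominator can get the surplus `y`: the elements of `P` are the
players, the elements of `Y` are the targets. -/
def DualGood (M : X → Finset V) (P : Finset X) (Y : Finset V) (y : ℕ) : Prop :=
  (∀ e ∈ Y, Threat M P y (Y.erase e)) ∧
    (Threat M P y Y ∨ ∃ w ∈ P, 3 ≤ (M w ∩ Y).card ∧ Threat M P y (Y \ M w) ∧
      ∀ e ∈ Y \ M w, Threat M P y ((Y \ M w).erase e))

/-- The players covering `x`, as a set. -/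
def cov (N : V → Finset X) (x : X) : Finset V := univ.filter fun v => x ∈ N v

end Helper77.TDG
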