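import Mathlib
import Pool.Agent.Helper77_TDG2.Defs

/-!
# Fresh components of a position
-/

set_option linter.unusedSectionVars false

namespace Helper77.TDG

open Finset Classical

variable {V X : Type*} [Fintype V] [DecidableEq V] [DecidableEq X]
variable {N : V → Finset X} {U : Finset X}

/-- `D` is a union of components of `U`. -/
def Cl (N : V → Finset X) (U D : Finset X) : Prop := ∀ v, (N v ∩ D).Nonempty → N v ∩ U ⊆ D

/-- The fresh components of `U`. -/
noncomputable def Fr (N : V → Finset X) (U : Finset X) : Finset (Finset X) :=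
  U.powerset.filter fun C => Fresh N C ∧ Cl N U C

lemma mem_Fr {C : Finset X} : C ∈ Fr N U ↔ C ⊆ U ∧ Fresh N C ∧ Cl N U C := by
  simp [Fr]

lemma dying_sub (v : V) : dying N U v ⊆ alive N U := filter_subset _ _

lemma mem_dying {u v : V} : u ∈ dying N U v ↔ (N u ∩ U).Nonempty ∧ N u ∩ U ⊆ N v := by
  simp [dying, mem_alive]

lemma alive_sdiff (v : V) : alive N (U \ N v) = alive N U \ dying N U v := by
  ext u
  rw [mem_sdiff, mem_dying, mem_alive, mem_alive]
  constructor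
  · rintro ⟨x, hx⟩
    rw [mem_inter, mem_sdiff] at hx
    exact ⟨⟨x, mem_inter.2 ⟨hx.1, hx.2.1⟩⟩,
      fun h => hx.2.2 (h.2 (mem_inter.2 ⟨hx.1, hx.2.1⟩))⟩
  · rintro ⟨h1, h2⟩
    have h3 : ¬ (N u ∩ U ⊆ N v) := fun h => h2 ⟨h1, h⟩
    rw [not_subset] at h3
    obtain ⟨x, hx, hxv⟩ := h3
    rw [mem_inter] at hx
    exact ⟨x, mem_inter.2 ⟨hx.1, mem_sdiff.2 ⟨hx.2, hxv⟩⟩⟩

lemma alive_card_dying (v : V) :
    (alive N (U \ N v)).card + (dying N U v).card = (alive N U).card := by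
  rw [alive_sdiff]
  exact card_sdiff_add_card_eq_card (dying_sub v)

lemma phi_step (v : V) : phi N (U \ N v) + gain N U v = phi N U := by
  have h1 := card_step (N := N) (U := U) v
  have h2 := alive_card_dying (N := N) (U := U) v
  unfold phi gain
  omega

lemma self_mem_dying {v : V} (hv : (N v ∩ U).Nonempty) : v ∈ dying N U v :=
  mem_dying.2 ⟨hv, inter_subset_left⟩

lemma two_le_gain {v : V} (hv : (N v ∩ U).Nonempty) : 2 ≤ gain N U v := by
  have h1 := card_pos.2 hv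
  have h2 := card_pos.2 ⟨v, self_mem_dying hv⟩
  unfold gain
  omega

lemma one_le_dying {v : V} (hv : (N v ∩ U).Nonempty) : 1 ≤ (dying N U v).card :=
  card_pos.2 ⟨v, self_mem_dying hv⟩

/-- Players meeting a closed set. -/
lemma Cl.inter_eq {D : Finset X} (hD : Cl N U D) (hDU : D ⊆ U) {v : V}
    (hv : (N v ∩ D).Nonempty) : N v ∩ U = N v ∩ D := by
  apply Subset.antisymm
  · intro x hx
    exact mem_inter.2 ⟨(mem_inter.1 hx).1, hD v hv hx⟩
  · intro x hx
    exact mem_inter.2 ⟨(mem_inter.1 hx).1, hDU (mem_inter.1 hx).2⟩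

lemma Cl.gain_eq {D : Finset X} (hD : Cl N U D) (hDU : D ⊆ U) {v : V}
    (hv : (N v ∩ D).Nonempty) : gain N U v = gain N D v := by
  have h1 := hD.inter_eq hDU hv
  have h2 : dying N U v = dying N D v := by
    ext u
    rw [mem_dying, mem_dying]
    constructor
    · rintro ⟨⟨x, hx⟩, h⟩
      have hxD : x ∈ D := by
        have : x ∈ N v ∩ U := mem_inter.2 ⟨h hx, (mem_inter.1 hx).2⟩
        rw [h1] at this
        exact (mem_inter.1 this).2
      have hne : (N u ∩ D).Nonempty := ⟨x, mem_inter.2 ⟨(mem_inter.1 hx).1, hxD⟩⟩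
      refine ⟨hne, ?_⟩
      rw [← hD.inter_eq hDU hne]
      exact h
    · rintro ⟨hne, h⟩
      rw [hD.inter_eq hDU hne]
      exact ⟨hne, h⟩
  unfold gain
  rw [h1, h2]

lemma Cl.sdiff {D : Finset X} (hD : Cl N U D) (v : V) : Cl N (U \ N v) (D \ N v) := by
  intro u hu x hx
  obtain ⟨y, hy⟩ := hu
  rw [mem_inter, mem_sdiff] at hx hy
  exact mem_sdiff.2 ⟨hD u ⟨y, mem_inter.2 ⟨hy.1, hy.2.1⟩⟩ (mem_inter.2 ⟨hx.1, hx.2.1⟩), hx.2.2⟩

lemma Fr_disjoint {C D : Finset X} (hC : C ∈ Fr N U) (hD : D ∈ Fr N U) (hne : C ≠ D) :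
    Disjoint C D := by
  rw [mem_Fr] at hC hD
  by_contra h
  rw [not_disjoint_iff] at h
  obtain ⟨x, hxC, hxD⟩ := h
  have key : ∀ v, (N v ∩ (C ∩ D)).Nonempty → N v ∩ U ⊆ C ∩ D := by
    rintro v ⟨y, hy⟩
    rw [mem_inter, mem_inter] at hy
    intro z hz
    exact mem_inter.2 ⟨hC.2.2 v ⟨y, mem_inter.2 ⟨hy.1, hy.2.1⟩⟩ hz,
      hD.2.2 v ⟨y, mem_inter.2 ⟨hy.1, hy.2.2⟩⟩ hz⟩
  have h1 := hC.2.1.2.2 (C ∩ D) inter_subset_left ⟨x, mem_inter.2 ⟨hxC, hxD⟩⟩
    (fun v hv => (inter_subset_inter_left hC.1).trans (key v hv))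
  have h2 := hD.2.1.2.2 (C ∩ D) inter_subset_right ⟨x, mem_inter.2 ⟨hxC, hxD⟩⟩
    (fun v hv => (inter_subset_inter_left hD.1).trans (key v hv))
  exact hne (h1.symm.trans h2)

lemma Fr_unique {C D : Finset X} (hC : C ∈ Fr N U) (hD : D ∈ Fr N U) {v : V}
    (hvC : (N v ∩ C).Nonempty) (hvD : (N v ∩ D).Nonempty) : C = D := by
  by_contra hne
  have hdis := Fr_disjoint hC hD hne
  rw [mem_Fr] at hC hD
  obtain ⟨x, hx⟩ := hvD
  rw [mem_inter] at hx
  have := hC.2.2 v hvC (mem_inter.2 ⟨hx.1, hD.1 hx.2⟩)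
  exact (disjoint_left.1 hdis) this hx.2

lemma Fr_alive_disjoint {C D : Finset X} (hC : C ∈ Fr N U) (hD : D ∈ Fr N U) (hne : C ≠ D) :
    Disjoint (alive N C) (alive N D) := by
  rw [disjoint_left]
  intro v h1 h2
  exact hne (Fr_unique hC hD (mem_alive.1 h1) (mem_alive.1 h2))

lemma Fr_sdiff (h2 : ∀ v, (N v ∩ U).card ≤ 2) (v : V) :
    Fr N (U \ N v) = (Fr N U).filter fun C => ¬ (N v ∩ C).Nonempty := by
  ext C
  rw [mem_filter, mem_Fr, mem_Fr]
  constructor
  · rintro ⟨h1, hF, hc⟩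
    have hCU : C ⊆ U := h1.trans sdiff_subset
    refine ⟨⟨hCU, hF, ?_⟩, ?_⟩
    · intro w hw
      have hw2 := hF.2.1 w hw
      have hsub : N w ∩ C ⊆ N w ∩ U := inter_subset_inter_left hCU
      have : N w ∩ C = N w ∩ U := eq_of_subset_of_card_le hsub (by rw [hw2]; exact h2 w)
      rw [← this]
      exact inter_subset_right
    · rintro ⟨x, hx⟩
      rw [mem_inter] at hx
      exact (mem_sdiff.1 (h1 hx.2)).2 hx.1
  · rintro ⟨⟨hCU, hF, hc⟩, hv⟩
    refine ⟨?_, hF, ?_⟩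
    · intro x hx
      exact mem_sdiff.2 ⟨hCU hx, fun h => hv ⟨x, mem_inter.2 ⟨h, hx⟩⟩⟩
    · intro w hw
      exact (inter_subset_inter_left sdiff_subset).trans (hc w hw)

lemma Fr_sdiff_in (h2 : ∀ v, (N v ∩ U).card ≤ 2) {v : V} {C : Finset X} (hC : C ∈ Fr N U)
    (hv : (N v ∩ C).Nonempty) : Fr N (U \ N v) = (Fr N U).erase C := by
  rw [Fr_sdiff h2]
  ext D
  rw [mem_filter, mem_erase]
  constructor
  · rintro ⟨h1, h3⟩
    exact ⟨fun h => h3 (h ▸ hv), h1⟩
  · rintro ⟨h1, h3⟩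
    exact ⟨h3, fun h => h1 (Fr_unique h3 hC h hv)⟩

lemma Fr_sdiff_out (h2 : ∀ v, (N v ∩ U).card ≤ 2) {v : V}
    (hv : ∀ C ∈ Fr N U, ¬ (N v ∩ C).Nonempty) : Fr N (U \ N v) = Fr N U := by
  rw [Fr_sdiff h2]
  exact filter_true_of_mem hv

lemma deg_sdiff (h2 : ∀ v, (N v ∩ U).card ≤ 2) (w : V) : ∀ v, (N v ∩ (U \ N w)).card ≤ 2 :=
  fun v => (card_le_card (inter_subset_inter_left sdiff_subset)).trans (h2 v)

lemma three_le_gain_of_Fr {v : V} {C : Finset X} (hC : C ∈ Fr N U)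
    (hv : (N v ∩ C).Nonempty) : 3 ≤ gain N U v := by
  rw [mem_Fr] at hC
  rw [hC.2.2.gain_eq hC.1 hv]
  have h1 := hC.2.1.2.1 v hv
  have h2 := one_le_dying (N := N) (U := C) hv
  unfold gain
  omega

/-- The component of `x`. -/
noncomputable def cmp (N : V → Finset X) (U : Finset X) (x : X) : Finset X :=
  U.filter fun y => ∀ D ⊆ U, Cl N U D → x ∈ D → y ∈ D

lemma cmp_sub (x : X) : cmp N U x ⊆ U := filter_subset _ _

lemma mem_cmp {x y : X} : y ∈ cmp N U x ↔ y ∈ U ∧ ∀ D ⊆ U, Cl N U D → x ∈ D → y ∈ D := by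
  simp [cmp]

lemma self_mem_cmp {x : X} (hx : x ∈ U) : x ∈ cmp N U x :=
  mem_cmp.2 ⟨hx, fun _ _ _ h => h⟩

lemma cmp_Cl (x : X) : Cl N U (cmp N U x) := by
  rintro v ⟨y, hy⟩ z hz
  rw [mem_inter] at hy hz
  rw [mem_cmp]
  refine ⟨hz.2, fun D hDU hD hx => ?_⟩
  have := (mem_cmp.1 hy.2).2 D hDU hD hx
  exact hD v ⟨y, mem_inter.2 ⟨hy.1, this⟩⟩ (mem_inter.2 hz)

lemma cmp_conn {x : X} (hx : x ∈ U) : ∀ D ⊆ cmp N U x, D.Nonempty →
    (∀ v, (N v ∩ D).Nonempty → N v ∩ cmp N U x ⊆ D) → D = cmp N U x := by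
  intro D hD hne hcl
  have hDcl : Cl N U D := by
    intro v hv z hz
    have h1 : (N v ∩ cmp N U x).Nonempty := hv.mono (inter_subset_inter_left hD)
    exact hcl v hv (mem_inter.2 ⟨(mem_inter.1 hz).1, cmp_Cl x v h1 hz⟩)
  by_cases hxD : x ∈ D
  · apply Subset.antisymm hD
    intro y hy
    exact (mem_cmp.1 hy).2 D (hD.trans (cmp_sub x)) hDcl hxD
  · exfalso
    have hE : Cl N U (cmp N U x \ D) := by
      rintro v ⟨y, hy⟩ z hz
      rw [mem_inter, mem_sdiff] at hy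
      have h1 : (N v ∩ cmp N U x).Nonempty := ⟨y, mem_inter.2 ⟨hy.1, hy.2.1⟩⟩
      rw [mem_sdiff]
      refine ⟨cmp_Cl x v h1 hz, fun hzD => hy.2.2 ?_⟩
      exact hcl v ⟨z, mem_inter.2 ⟨(mem_inter.1 hz).1, hzD⟩⟩ (mem_inter.2 ⟨hy.1, hy.2.1⟩)
    obtain ⟨y, hy⟩ := hne
    have := (mem_cmp.1 (hD hy)).2 _ (sdiff_subset.trans (cmp_sub x)) hE
      (mem_sdiff.2 ⟨self_mem_cmp hx, hxD⟩)
    exact (mem_sdiff.1 this).2 hy

/-- Outside the fresh components every move has gain at most three. -/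
def Quiet (N : V → Finset X) (U : Finset X) : Prop :=
  ∀ v, (N v ∩ U).Nonempty → (∀ C ∈ Fr N U, ¬ (N v ∩ C).Nonempty) → gain N U v ≤ 3

/-- The targets outside the fresh components. -/
noncomputable def rest (N : V → Finset X) (U : Finset X) : Finset X :=
  U.filter fun x => ∀ C ∈ Fr N U, x ∉ C

lemma mem_rest {x : X} : x ∈ rest N U ↔ x ∈ U ∧ ∀ C ∈ Fr N U, x ∉ C := by simp [rest]

lemma quiet_rest (hN : ∀ x, 2 ≤ (univ.filter fun v => x ∈ N v).card)
    (h2 : ∀ v, (N v ∩ U).card ≤ 2) (hQ : Quiet N U) {x : X} (hx : x ∈ rest N U) :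
    (∀ v, x ∈ N v → N v ∩ U = {x}) ∧ (univ.filter fun v => x ∈ N v).card = 2 := by
  rw [mem_rest] at hx
  obtain ⟨hxU, hxF⟩ := hx
  set K := cmp N U x with hK
  have hKU : K ⊆ U := cmp_sub x
  have hKcl : Cl N U K := cmp_Cl x
  have hxK : x ∈ K := self_mem_cmp hxU
  have hconn := cmp_conn (N := N) (U := U) hxU
  rw [← hK] at hconn
  have hKF : K ∉ Fr N U := fun h => hxF K h hxK
  -- a private player
  have h1 : ∃ v, (N v ∩ K).Nonempty ∧ (N v ∩ K).card ≠ 2 := by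
    by_contra h
    push Not at h
    exact hKF (mem_Fr.2 ⟨hKU, ⟨⟨x, hxK⟩, h, hconn⟩, hKcl⟩)
  obtain ⟨v, hv, hv2⟩ := h1
  have hvU := hKcl.inter_eq hKU hv
  have hv1 : (N v ∩ K).card = 1 := by
    have := h2 v
    rw [hvU] at this
    have := card_pos.2 hv
    omega
  obtain ⟨z, hz⟩ := card_eq_one.1 hv1
  have hzK : z ∈ K := by
    have : z ∈ N v ∩ K := by rw [hz]; exact mem_singleton_self z
    exact (mem_inter.1 this).2
  -- players meeting K do not meet fresh components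
  have hout : ∀ w, (N w ∩ K).Nonempty → ∀ C ∈ Fr N U, ¬ (N w ∩ C).Nonempty := by
    intro w hw C hC hwC
    have hCm := mem_Fr.1 hC
    obtain ⟨y, hy⟩ := hwC
    have hyK : y ∈ K := hKcl w hw (mem_inter.2 ⟨(mem_inter.1 hy).1, hCm.1 (mem_inter.1 hy).2⟩)
    have hyC := (mem_inter.1 hy).2
    have e1 : C ∩ K = C := by
      refine hCm.2.1.2.2 (C ∩ K) inter_subset_left ⟨y, mem_inter.2 ⟨hyC, hyK⟩⟩ ?_
      rintro u ⟨a, ha⟩ b hb
      rw [mem_inter, mem_inter] at ha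
      rw [mem_inter] at hb
      exact mem_inter.2 ⟨hb.2, hKcl u ⟨a, mem_inter.2 ⟨ha.1, ha.2.2⟩⟩
        (mem_inter.2 ⟨hb.1, hCm.1 hb.2⟩)⟩
    have e2 : C ∩ K = K := by
      refine hconn (C ∩ K) inter_subset_right ⟨y, mem_inter.2 ⟨hyC, hyK⟩⟩ ?_
      rintro u ⟨a, ha⟩ b hb
      rw [mem_inter, mem_inter] at ha
      rw [mem_inter] at hb
      exact mem_inter.2 ⟨hCm.2.2 u ⟨a, mem_inter.2 ⟨ha.1, ha.2.1⟩⟩
        (mem_inter.2 ⟨hb.1, hKU hb.2⟩), hb.2⟩
    exact hKF (e2 ▸ e1.symm ▸ hC)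
  -- all players covering z are private
  have hall : ∀ w, z ∈ N w → N w ∩ U = {z} := by
    intro w hw
    have hwK : (N w ∩ K).Nonempty := ⟨z, mem_inter.2 ⟨hw, hzK⟩⟩
    have hwU : (N w ∩ U).Nonempty := ⟨z, mem_inter.2 ⟨hw, hKU hzK⟩⟩
    by_contra hne
    have hcard : 2 ≤ (N w ∩ U).card := by
      by_contra hlt
      have h1 : (N w ∩ U).card = 1 := by
        have := card_pos.2 hwU
        omega
      obtain ⟨z', hz'⟩ := card_eq_one.1 h1
      have : z ∈ N w ∩ U := mem_inter.2 ⟨hw, hKU hzK⟩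
      rw [hz', mem_singleton] at this
      subst this
      exact hne hz'
    have hg := hQ w hwU (hout w hwK)
    have hvw : v ≠ w := by
      rintro rfl
      rw [hvU, hz] at hne
      exact hne rfl
    have hvd : v ∈ dying N U w := by
      rw [mem_dying, hvU, hz]
      exact ⟨singleton_nonempty z, singleton_subset_iff.2 hw⟩
    have hwd : w ∈ dying N U w := self_mem_dying hwU
    have : 2 ≤ (dying N U w).card := by
      have : 1 < (dying N U w).card := one_lt_card.2 ⟨v, hvd, w, hwd, hvw⟩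
      omega
    unfold gain at hg
    omega
  have hKz : ({z} : Finset X) = K := by
    refine hconn {z} (singleton_subset_iff.2 hzK) (singleton_nonempty z) ?_
    rintro w ⟨a, ha⟩
    rw [mem_inter, mem_singleton] at ha
    obtain ⟨ha1, rfl⟩ := ha
    have := hall w ha1
    intro b hb
    rw [← this]
    exact mem_inter.2 ⟨(mem_inter.1 hb).1, hKU (mem_inter.1 hb).2⟩
  have hxz : x = z := by
    have : x ∈ ({z} : Finset X) := by rw [hKz]; exact hxK
    exact mem_singleton.1 this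
  subst hxz
  refine ⟨hall, le_antisymm ?_ (hN x)⟩
  have hxv : x ∈ N v := by
    have : x ∈ N v ∩ K := by rw [hz]; exact mem_singleton_self x
    exact (mem_inter.1 this).1
  have hvU' : (N v ∩ U).Nonempty := ⟨x, mem_inter.2 ⟨hxv, hxU⟩⟩
  have hg := hQ v hvU' (hout v hv)
  have hsub : (univ.filter fun w => x ∈ N w) ⊆ dying N U v := by
    intro w hw
    have hw' := (mem_filter.1 hw).2
    rw [mem_dying, hall w hw']
    exact ⟨singleton_nonempty x, singleton_subset_iff.2 hxv⟩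
  have h3 := card_le_card hsub
  have h4 : (N v ∩ U).card = 1 := by rw [hall v hxv]; exact card_singleton x
  unfold gain at hg
  omega

lemma card_split (N : V → Finset X) (U : Finset X) :
    U.card = ∑ C ∈ Fr N U, C.card + (rest N U).card := by
  have h1 : U = (Fr N U).biUnion id ∪ rest N U := by
    ext x
    rw [mem_union, mem_biUnion, mem_rest]
    constructor
    · intro hx
      by_cases h : ∃ C ∈ Fr N U, x ∈ C
      · left
        exact h
      · right
        push Not at h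
        exact ⟨hx, h⟩
    · rintro (⟨C, hC, hx⟩ | ⟨hx, -⟩)
      · exact (mem_Fr.1 hC).1 hx
      · exact hx
  have h2 : Disjoint ((Fr N U).biUnion id) (rest N U) := by
    rw [disjoint_left]
    intro x hx hx'
    obtain ⟨C, hC, hxC⟩ := mem_biUnion.1 hx
    exact (mem_rest.1 hx').2 C hC hxC
  have h3 : ((Fr N U).biUnion id).card = ∑ C ∈ Fr N U, C.card := by
    rw [card_biUnion]
    · rfl
    · intro C hC D hD hne
      exact Fr_disjoint hC hD hne
  calc U.card = ((Fr N U).biUnion id ∪ rest N U).card := by rw [← h1]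
    _ = _ := by rw [card_union_of_disjoint h2, h3]

lemma alive_split (hN : ∀ x, 2 ≤ (univ.filter fun v => x ∈ N v).card)
    (h2 : ∀ v, (N v ∩ U).card ≤ 2) (hQ : Quiet N U) :
    (alive N U).card = ∑ C ∈ Fr N U, (alive N C).card + 2 * (rest N U).card := by
  set R := (rest N U).biUnion fun x => univ.filter fun v => x ∈ N v with hR
  have hRcard : R.card = 2 * (rest N U).card := by
    rw [hR, card_biUnion]
    · rw [sum_congr rfl (fun x hx => (quiet_rest hN h2 hQ hx).2), sum_const, smul_eq_mul, mul_comm]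
    · intro x hx y hy hxy
      change Disjoint (univ.filter fun v => x ∈ N v) (univ.filter fun v => y ∈ N v)
      rw [disjoint_left]
      intro v hvx hvy
      have hx' := (quiet_rest hN h2 hQ hx).1 v (mem_filter.1 hvx).2
      have hy' := (quiet_rest hN h2 hQ hy).1 v (mem_filter.1 hvy).2
      rw [hx'] at hy'
      exact hxy (singleton_injective hy')
  set B := (Fr N U).biUnion fun C => alive N C with hB
  have hBcard : B.card = ∑ C ∈ Fr N U, (alive N C).card := by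
    rw [hB, card_biUnion]
    intro C hC D hD hne
    exact Fr_alive_disjoint hC hD hne
  have h1 : alive N U = B ∪ R := by
    ext v
    rw [mem_union, hB, hR, mem_biUnion, mem_biUnion]
    constructor
    · intro hv
      obtain ⟨x, hx⟩ := mem_alive.1 hv
      rw [mem_inter] at hx
      by_cases h : ∃ C ∈ Fr N U, x ∈ C
      · obtain ⟨C, hC, hxC⟩ := h
        exact Or.inl ⟨C, hC, mem_alive.2 ⟨x, mem_inter.2 ⟨hx.1, hxC⟩⟩⟩
      · push Not at h
        exact Or.inr ⟨x, mem_rest.2 ⟨hx.2, h⟩, mem_filter.2 ⟨mem_univ _, hx.1⟩⟩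
    · rintro (⟨C, hC, hv⟩ | ⟨x, hx, hv⟩)
      · obtain ⟨x, hx⟩ := mem_alive.1 hv
        rw [mem_inter] at hx
        exact mem_alive.2 ⟨x, mem_inter.2 ⟨hx.1, (mem_Fr.1 hC).1 hx.2⟩⟩
      · exact mem_alive.2 ⟨x, mem_inter.2 ⟨(mem_filter.1 hv).2, (mem_rest.1 hx).1⟩⟩
  have h3 : Disjoint B R := by
    rw [disjoint_left]
    intro v hv hv'
    obtain ⟨C, hC, hvC⟩ := mem_biUnion.1 hv
    obtain ⟨x, hx, hvx⟩ := mem_biUnion.1 hv'
    have h4 := (quiet_rest hN h2 hQ hx).1 v (mem_filter.1 hvx).2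
    have hCm := mem_Fr.1 hC
    obtain ⟨y, hy⟩ := mem_alive.1 hvC
    have : y ∈ N v ∩ U := mem_inter.2 ⟨(mem_inter.1 hy).1, hCm.1 (mem_inter.1 hy).2⟩
    rw [h4, mem_singleton] at this
    subst this
    exact (mem_rest.1 hx).2 C hC (mem_inter.1 hy).2
  rw [h1, card_union_of_disjoint h3, hBcard, hRcard]

/-- Class of a fresh component. -/
def rr (n : ℕ) : ℕ := if n % 6 = 3 then 0 else n % 6

/-- The class of a position. -/
noncomputable def cc (N : V → Finset X) (U : Finset X) : ℕ :=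
  (phi N U + 5 * ∑ C ∈ Fr N U, rr (phi N C)) % 6

lemma cc_lt (N : V → Finset X) (U : Finset X) : cc N U < 6 := Nat.mod_lt _ (by norm_num)

lemma sum_phi_quiet (hN : ∀ x, 2 ≤ (univ.filter fun v => x ∈ N v).card)
    (h2 : ∀ v, (N v ∩ U).card ≤ 2) (hQ : Quiet N U) :
    phi N U = ∑ C ∈ Fr N U, phi N C + 3 * (rest N U).card := by
  have h1 := card_split N U
  have h3 := alive_split hN h2 hQ
  unfold phi
  rw [sum_add_distrib]
  omega

lemma rr_mod (n : ℕ) : (n + 5 * rr n) % 6 = if n % 6 = 3 then 3 else 0 := by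
  unfold rr
  split_ifs with h <;> omega

lemma sum_mod_aux (S : Finset (Finset X)) (f : Finset X → ℕ) :
    (∑ C ∈ S, f C + 5 * ∑ C ∈ S, rr (f C)) % 6
      = (3 * (S.filter fun C => f C % 6 = 3).card) % 6 := by
  induction S using Finset.induction_on with
  | empty => simp
  | insert C S hC ih =>
    rw [sum_insert hC, sum_insert hC, filter_insert]
    have h := rr_mod (f C)
    by_cases h3 : f C % 6 = 3
    · rw [if_pos h3] at h
      rw [if_pos h3, card_insert_of_notMem (by simp [hC])]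
      omega
    · rw [if_neg h3] at h
      rw [if_neg h3]
      omega

lemma cc_quiet (hN : ∀ x, 2 ≤ (univ.filter fun v => x ∈ N v).card)
    (h2 : ∀ v, (N v ∩ U).card ≤ 2) (hQ : Quiet N U) :
    cc N U = (3 * (((Fr N U).filter fun C => phi N C % 6 = 3).card + (rest N U).card)) % 6 := by
  unfold cc
  rw [sum_phi_quiet hN h2 hQ]
  have := sum_mod_aux (Fr N U) (phi N)
  omega

lemma cc_step_out (h2 : ∀ v, (N v ∩ U).card ≤ 2) {v : V}
    (hv : ∀ C ∈ Fr N U, ¬ (N v ∩ C).Nonempty) :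
    (cc N (U \ N v) + gain N U v) % 6 = cc N U := by
  unfold cc
  rw [Fr_sdiff_out h2 hv]
  have := phi_step (N := N) (U := U) v
  omega

lemma cc_step_in (h2 : ∀ v, (N v ∩ U).card ≤ 2) {v : V} {C : Finset X} (hC : C ∈ Fr N U)
    (hv : (N v ∩ C).Nonempty) :
    (cc N (U \ N v) + gain N U v + 5 * rr (phi N C)) % 6 = cc N U := by
  unfold cc
  rw [Fr_sdiff_in h2 hC hv]
  have h1 := phi_step (N := N) (U := U) v
  have h3 := sum_erase_add (Fr N U) (fun C => rr (phi N C)) hC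
  omega

end Helper77.TDG
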