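import Mathlib
import Pool.Agent.Helper77_TDG2.Fr

/-!
# The dual clusters: Dominator first collects their surplus
-/

set_option linter.unusedSectionVars false

namespace Helper77.TDG

open Finset Classical

variable {V : Type*} [Fintype V] [DecidableEq V]
variable {N : V → Finset V}

lemma nb_sub (hsym : ∀ v x, x ∈ N v ↔ v ∈ N x) {C : Finset V} {w : V} (hw : w ∈ C) :
    N w ⊆ alive N C := by
  intro x hx
  exact mem_alive.2 ⟨w, mem_inter.2 ⟨(hsym w x).1 hx, hw⟩⟩

lemma threat_move (hsym : ∀ v x, x ∈ N v ↔ v ∈ N x) {C : Finset V} {y : ℕ} {U : Finset V}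
    (h : Threat N C y (U ∩ alive N C)) :
    ∃ w ∈ C, (N w ∩ U).Nonempty ∧
      12 * (U \ N w).card + 15 * (alive N (U \ N w)).card + 51 + y
        ≤ 12 * U.card + 15 * (alive N U).card := by
  obtain ⟨w, hwC, hval⟩ := h
  have hsub := nb_sub hsym hwC
  have h1 : N w ∩ (U ∩ alive N C) = N w ∩ U := by
    ext x
    simp only [mem_inter]
    constructor
    · rintro ⟨a, b, -⟩; exact ⟨a, b⟩
    · rintro ⟨a, b⟩; exact ⟨a, b, hsub a⟩
  have h2 : (C.filter fun u => (N u ∩ (U ∩ alive N C)).Nonempty ∧
      N u ∩ (U ∩ alive N C) ⊆ N w) ⊆ dying N U w := by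
    intro u hu
    rw [mem_filter] at hu
    obtain ⟨huC, hne, hsu⟩ := hu
    have hsub' := nb_sub hsym huC
    have h3 : N u ∩ (U ∩ alive N C) = N u ∩ U := by
      ext x
      simp only [mem_inter]
      constructor
      · rintro ⟨a, b, -⟩; exact ⟨a, b⟩
      · rintro ⟨a, b⟩; exact ⟨a, b, hsub' a⟩
    rw [h3] at hne hsu
    exact mem_dying.2 ⟨hne, hsu⟩
  have h3 := card_le_card h2
  have h4 := card_step (N := N) (U := U) w
  have h5 := alive_card_dying (N := N) (U := U) w
  unfold val at hval
  rw [h1] at hval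
  refine ⟨w, hwC, ?_, by omega⟩
  by_contra hne
  rw [not_nonempty_iff_eq_empty] at hne
  have h6 : (dying N U w) = ∅ := by
    rw [eq_empty_iff_forall_notMem]
    intro u hu
    rw [mem_dying] at hu
    obtain ⟨⟨x, hx⟩, hs⟩ := hu
    have : x ∈ N w ∩ U := mem_inter.2 ⟨hs hx, (mem_inter.1 hx).2⟩
    rw [hne] at this
    exact notMem_empty _ this
  rw [h6, card_empty] at h3
  rw [hne, card_empty] at hval
  omega

lemma threat_nonempty {C : Finset V} {y : ℕ} {F : Finset V} (h : Threat N C y F) :
    F.Nonempty := by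
  by_contra hne
  rw [not_nonempty_iff_eq_empty] at hne
  subst hne
  obtain ⟨w, hw, hval⟩ := h
  unfold val at hval
  have h1 : (C.filter fun u => (N u ∩ (∅ : Finset V)).Nonempty ∧ N u ∩ ∅ ⊆ N w) = ∅ := by
    rw [eq_empty_iff_forall_notMem]
    intro u hu
    rw [mem_filter, inter_empty] at hu
    exact not_nonempty_empty hu.2.1
  rw [h1, inter_empty, card_empty] at hval
  omega

lemma good_nonempty {C : Finset V} {y : ℕ} {F : Finset V} (h : DualGood N C F y) :
    F.Nonempty := by
  rcases h.2 with h | ⟨w, hw, h3, -⟩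
  · exact threat_nonempty h
  · have : (N w ∩ F).Nonempty := card_pos.1 (by omega)
    exact this.mono inter_subset_right

lemma card_family {A : Finset (Finset V)}
    (hdisj : ∀ C ∈ A, ∀ D ∈ A, C ≠ D → Disjoint (alive N C) (alive N D)) (W : Finset V)
    (hne : ∀ C ∈ A, (W ∩ alive N C).Nonempty) : A.card ≤ W.card := by
  have h1 : (A.biUnion fun C => W ∩ alive N C).card = ∑ C ∈ A, (W ∩ alive N C).card := by
    rw [card_biUnion]
    intro C hC D hD hCD
    exact (hdisj C hC D hD hCD).mono inter_subset_right inter_subset_right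
  have h2 : (A.biUnion fun C => W ∩ alive N C) ⊆ W := by
    intro x hx
    obtain ⟨C, hC, hx⟩ := mem_biUnion.1 hx
    exact (mem_inter.1 hx).1
  have h3 := card_le_card h2
  have h4 : ∑ C ∈ A, 1 ≤ ∑ C ∈ A, (W ∩ alive N C).card :=
    sum_le_sum fun C hC => card_pos.2 (hne C hC)
  rw [sum_const, smul_eq_mul, mul_one] at h4
  omega

lemma state_unhit {v : V} {C U : Finset V} (h : N v ∩ (U ∩ alive N C) = ∅) :
    (U \ N v) ∩ alive N C = U ∩ alive N C := by
  ext x
  simp only [mem_inter, mem_sdiff]
  constructor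
  · rintro ⟨⟨a, b⟩, c⟩; exact ⟨a, c⟩
  · rintro ⟨a, c⟩
    refine ⟨⟨a, fun hx => ?_⟩, c⟩
    have : x ∈ N v ∩ (U ∩ alive N C) := mem_inter.2 ⟨hx, mem_inter.2 ⟨a, c⟩⟩
    rw [h] at this
    exact notMem_empty _ this

theorem phase0_aux (hsym : ∀ v x, x ∈ N v ↔ v ∈ N x)
    (hN : ∀ x, 2 ≤ (univ.filter fun v => x ∈ N v).card) (K : ℕ)
    (base : ∀ k U, 12 * U.card + 15 * (alive N U).card + 12 + K ≤ 39 * k + 38 → CE N k true U)
    (y : Finset V → ℕ) (k : ℕ) :
    ∀ (A : Finset (Finset V)) (U : Finset V), (∀ C ∈ A, y C ≤ 6) →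
      (∀ C ∈ A, ∀ D ∈ A, C ≠ D → Disjoint (alive N C) (alive N D)) →
      ((∀ C ∈ A, DualGood N C (U ∩ alive N C) (y C)) →
        (12 * U.card + 15 * (alive N U).card + 12 + K ≤ 39 * k + 38 + ∑ C ∈ A, y C →
          CE N k true U) ∧
        (12 * U.card + 15 * (alive N U).card + 24 + K ≤ 39 * k + 38 + ∑ C ∈ A, y C →
          CE N k false U)) ∧
      (∀ C0 ∈ A, (∀ C ∈ A.erase C0, DualGood N C (U ∩ alive N C) (y C)) →
        Threat N C0 (y C0) (U ∩ alive N C0) →
        12 * U.card + 15 * (alive N U).card + 12 + K ≤ 39 * k + 38 + ∑ C ∈ A, y C →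
          CE N k true U) := by
  -- an empty position for `k = 0`
  have empt : ∀ (A : Finset (Finset V)) (U : Finset V), (∀ C ∈ A, y C ≤ 6) →
      (∀ C ∈ A, ∀ D ∈ A, C ≠ D → Disjoint (alive N C) (alive N D)) →
      (∀ C ∈ A, (U ∩ alive N C).Nonempty) →
      12 * U.card + 15 * (alive N U).card + 12 + K ≤ 38 + ∑ C ∈ A, y C → U = ∅ := by
    intro A U hy hd hne h
    by_contra hU
    have h1 := two_le_alive hN hU
    have h2 := card_family hd U hne
    have h3 : ∑ C ∈ A, y C ≤ ∑ C ∈ A, 6 := sum_le_sum hy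
    rw [sum_const, smul_eq_mul] at h3
    omega
  induction k with
  | zero =>
    intro A U hy hd
    refine ⟨fun hg => ⟨fun h => ?_, fun h => ?_⟩, fun C0 hC0 hg hT h => ?_⟩
    · rw [empt A U hy hd (fun C hC => good_nonempty (hg C hC)) (by omega)]
      exact CE_empty _ _
    · rw [empt A U hy hd (fun C hC => good_nonempty (hg C hC)) (by omega)]
      exact CE_empty _ _
    · rw [empt A U hy hd ?_ (by omega)]
      · exact CE_empty _ _
      · intro C hC
        by_cases hCC : C = C0
        · subst hCC; exact threat_nonempty hT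
        · exact good_nonempty (hg C (mem_erase.2 ⟨hCC, hC⟩))
  | succ k ih =>
    intro A U hy hd
    -- the other clusters are not changed by a player of `C0`
    have other : ∀ C0 ∈ A, ∀ w ∈ C0, ∀ C ∈ A.erase C0,
        (U \ N w) ∩ alive N C = U ∩ alive N C := by
      intro C0 hC0 w hw C hC
      rw [mem_erase] at hC
      apply state_unhit
      rw [eq_empty_iff_forall_notMem]
      intro x hx
      rw [mem_inter, mem_inter] at hx
      exact disjoint_left.1 (hd C0 hC0 C hC.2 (Ne.symm hC.1)) (nb_sub hsym hw hx.1) hx.2.2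
    have hd' : ∀ C0 : Finset V, ∀ C ∈ A.erase C0, ∀ D ∈ A.erase C0, C ≠ D →
        Disjoint (alive N C) (alive N D) := fun C0 C hC D hD =>
      hd C (mem_of_mem_erase hC) D (mem_of_mem_erase hD)
    have hy' : ∀ C0 : Finset V, ∀ C ∈ A.erase C0, y C ≤ 6 := fun C0 C hC =>
      hy C (mem_of_mem_erase hC)
    have urgent : ∀ C0 ∈ A, (∀ C ∈ A.erase C0, DualGood N C (U ∩ alive N C) (y C)) →
        Threat N C0 (y C0) (U ∩ alive N C0) →
        12 * U.card + 15 * (alive N U).card + 12 + K ≤ 39 * (k + 1) + 38 + ∑ C ∈ A, y C →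
          CE N (k + 1) true U := by
      intro C0 hC0 hg hT h
      obtain ⟨w, hw, hwU, hdrop⟩ := threat_move hsym hT
      right
      refine ⟨w, hwU, ((ih (A.erase C0) (U \ N w) (hy' C0) (hd' C0)).1 ?_).2 ?_⟩
      · intro C hC
        rw [other C0 hC0 w hw C hC]
        exact hg C hC
      · have := sum_erase_add A y hC0
        omega
    refine ⟨fun hg => ⟨fun h => ?_, fun h => ?_⟩, urgent⟩
    · -- Dominator, no urgent cluster
      by_cases hA : A = ∅
      · subst hA
        exact base _ _ (by simpa using h)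
      obtain ⟨C0, hC0⟩ := nonempty_iff_ne_empty.2 hA
      rcases (hg C0 hC0).2 with hT | ⟨w, hw, h3, hT, hE⟩
      · exact urgent C0 hC0 (fun C hC => hg C (mem_of_mem_erase hC)) hT h
      · have hsub := nb_sub hsym hw
        have h1 : N w ∩ (U ∩ alive N C0) = N w ∩ U := by
          ext x
          simp only [mem_inter]
          constructor
          · rintro ⟨a, b, -⟩; exact ⟨a, b⟩
          · rintro ⟨a, b⟩; exact ⟨a, b, hsub a⟩
        rw [h1] at h3
        have hwU : (N w ∩ U).Nonempty := card_pos.1 (by omega)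
        right
        refine ⟨w, hwU, ((ih A (U \ N w) hy hd).1 ?_).2 ?_⟩
        · intro C hC
          by_cases hCC : C = C0
          · subst hCC
            have h4 : (U \ N w) ∩ alive N C = (U ∩ alive N C) \ N w := by
              ext x
              simp only [mem_inter, mem_sdiff]
              tauto
            rw [h4]
            exact ⟨hE, Or.inl hT⟩
          · rw [other C0 hC0 w hw C (mem_erase.2 ⟨hCC, hC⟩)]
            exact hg C hC
        · have h5 := card_step (N := N) (U := U) w
          have h6 := alive_card_step hwU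
          omega
    · -- Staller
      intro v hv
      have h5 := card_step (N := N) (U := U) v
      have h6 := alive_card_step hv
      have h7 := card_pos.2 hv
      set A0 := A.filter fun C => N v ∩ (U ∩ alive N C) = ∅ with hA0
      set H := A.filter fun C => ¬ (N v ∩ (U ∩ alive N C) = ∅) with hH
      have hsum : ∑ C ∈ A0, y C + ∑ C ∈ H, y C = ∑ C ∈ A, y C :=
        sum_filter_add_sum_filter_not A _ y
      have hHy : ∑ C ∈ H, y C ≤ ∑ C ∈ H, 6 :=
        sum_le_sum fun C hC => hy C (mem_filter.1 hC).1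
      rw [sum_const, smul_eq_mul] at hHy
      have hHcard : H.card ≤ (N v ∩ U).card := by
        refine card_family (N := N) (A := H) ?_ (N v ∩ U) ?_
        · intro C hC D hD
          exact hd C (mem_filter.1 hC).1 D (mem_filter.1 hD).1
        · intro C hC
          rw [inter_assoc]
          exact nonempty_iff_ne_empty.2 (mem_filter.1 hC).2
      by_cases h1 : H.card = 1 ∧ (N v ∩ U).card = 1
      · -- one hit
        obtain ⟨C0, hHC⟩ := card_eq_one.1 h1.1
        have hC0H : C0 ∈ H := by rw [hHC]; exact mem_singleton_self _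
        have hC0 : C0 ∈ A := (mem_filter.1 hC0H).1
        have hhit := nonempty_iff_ne_empty.2 (mem_filter.1 hC0H).2
        obtain ⟨e, he⟩ := hhit
        have heU : N v ∩ U = {e} := by
          obtain ⟨e', he'⟩ := card_eq_one.1 h1.2
          have : e ∈ N v ∩ U := by
            rw [← inter_assoc] at he
            exact (mem_inter.1 he).1
          rw [he', mem_singleton] at this
          rw [he', this]
        have hst : (U \ N v) ∩ alive N C0 = (U ∩ alive N C0).erase e := by
          ext x
          simp only [mem_inter, mem_sdiff, mem_erase]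
          constructor
          · rintro ⟨⟨a, b⟩, c⟩
            refine ⟨?_, a, c⟩
            rintro rfl
            have : x ∈ N v ∩ U := by rw [heU]; exact mem_singleton_self _
            exact b (mem_inter.1 this).1
          · rintro ⟨a, b, c⟩
            refine ⟨⟨b, fun hx => a ?_⟩, c⟩
            have : x ∈ N v ∩ U := mem_inter.2 ⟨hx, b⟩
            rw [heU] at this
            exact mem_singleton.1 this
        refine (ih A (U \ N v) hy hd).2 C0 hC0 ?_ ?_ (by omega)
        · intro C hC
          rw [mem_erase] at hC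
          have hCH : C ∉ H := by
            rw [hHC, mem_singleton]
            exact hC.1
          have : N v ∩ (U ∩ alive N C) = ∅ := by
            by_contra hne
            exact hCH (mem_filter.2 ⟨hC.2, hne⟩)
          rw [state_unhit this]
          exact hg C hC.2
        · rw [hst]
          exact (hg C0 hC0).1 e (mem_inter.1 he).2
      · refine ((ih A0 (U \ N v) ?_ ?_).1 ?_).1 ?_
        · intro C hC
          exact hy C (mem_filter.1 hC).1
        · intro C hC D hD
          exact hd C (mem_filter.1 hC).1 D (mem_filter.1 hD).1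
        · intro C hC
          rw [state_unhit (mem_filter.1 hC).2]
          exact hg C (mem_filter.1 hC).1
        · rw [not_and_or] at h1
          omega

theorem phase0 (hsym : ∀ v x, x ∈ N v ↔ v ∈ N x)
    (hN : ∀ x, 2 ≤ (univ.filter fun v => x ∈ N v).card) (K : ℕ)
    (base : ∀ k U, 12 * U.card + 15 * (alive N U).card + 12 + K ≤ 39 * k + 38 → CE N k true U)
    (y : Finset V → ℕ) (k : ℕ) (A : Finset (Finset V)) (U : Finset V) (hy : ∀ C ∈ A, y C ≤ 6)
    (hd : ∀ C ∈ A, ∀ D ∈ A, C ≠ D → Disjoint (alive N C) (alive N D))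
    (hg : ∀ C ∈ A, DualGood N C (U ∩ alive N C) (y C))
    (h : 12 * U.card + 15 * (alive N U).card + 12 + K ≤ 39 * k + 38 + ∑ C ∈ A, y C) :
    CE N k true U :=
  ((phase0_aux hsym hN K base y k A U hy hd).1 hg).1 h

end Helper77.TDG
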