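import Mathlib
import Pool.Agent.Helper77_TDG2.Fr

/-!
# The endgame: every player covers at most two uncovered targets
-/

set_option linter.unusedSectionVars false

namespace Helper77.TDG

open Finset Classical

variable {V X : Type*} [Fintype V] [DecidableEq V] [DecidableEq X]
variable {N : V → Finset X} {U : Finset X}

/-- Correction when Dominator is to move (shifted by one). -/
def dD (c : ℕ) : ℕ := if c = 0 then 2 else if c = 4 then 0 else 1

/-- Correction when Staller is to move (shifted by one). -/
def dS (c : ℕ) : ℕ := if c = 0 then 1 else if c = 2 then 3 else 2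

/-- The number of critical components. -/
noncomputable def bb (N : V → Finset X) (U : Finset X) : ℕ :=
  ((Fr N U).filter fun C => phi N C % 6 = 5).card

lemma bb_step_out (h2 : ∀ v, (N v ∩ U).card ≤ 2) {v : V}
    (hv : ∀ C ∈ Fr N U, ¬ (N v ∩ C).Nonempty) : bb N (U \ N v) = bb N U := by
  unfold bb
  rw [Fr_sdiff_out h2 hv]

lemma bb_step_in (h2 : ∀ v, (N v ∩ U).card ≤ 2) {v : V} {C : Finset X} (hC : C ∈ Fr N U)
    (hv : (N v ∩ C).Nonempty) :
    bb N (U \ N v) + (if phi N C % 6 = 5 then 1 else 0) = bb N U := by
  unfold bb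
  rw [Fr_sdiff_in h2 hC hv, filter_erase]
  split_ifs with h
  · exact card_erase_add_one (mem_filter.2 ⟨hC, h⟩)
  · rw [erase_eq_of_notMem]
    · rfl
    · intro hm
      exact h (mem_filter.1 hm).2

lemma two_le_Fresh {C : Finset X} (hN : ∀ x, 2 ≤ (univ.filter fun v => x ∈ N v).card)
    (hC : Fresh N C) : 2 ≤ C.card := by
  obtain ⟨x, hx⟩ := hC.1
  obtain ⟨v, hv⟩ := exists_cover hN x
  have h1 := hC.2.1 v ⟨x, mem_inter.2 ⟨hv, hx⟩⟩
  have := card_le_card (inter_subset_right (s₁ := N v) (s₂ := C))
  omega

lemma Fr_card_one (hN : ∀ x, 2 ≤ (univ.filter fun v => x ∈ N v).card) (h : U.card ≤ 1) :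
    Fr N U = ∅ := by
  rw [eq_empty_iff_forall_notMem]
  intro C hC
  rw [mem_Fr] at hC
  have h1 := two_le_Fresh hN hC.2.1
  have h3 := card_le_card hC.1
  omega

lemma three_le_phi (hN : ∀ x, 2 ≤ (univ.filter fun v => x ∈ N v).card) (hU : U ≠ ∅) :
    3 ≤ phi N U := by
  have h1 := two_le_alive hN hU
  have h3 := card_pos.2 (nonempty_iff_ne_empty.2 hU)
  unfold phi
  omega

lemma base_aux (hN : ∀ x, 2 ≤ (univ.filter fun v => x ∈ N v).card) (hU : U ≠ ∅) :
    3 ≤ phi N U ∧ 2 ≤ (alive N U).card ∧ (phi N U = 3 → cc N U = 3) := by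
  have h1 := two_le_alive hN hU
  have h3 := card_pos.2 (nonempty_iff_ne_empty.2 hU)
  refine ⟨three_le_phi hN hU, h1, fun h => ?_⟩
  have h4 : U.card ≤ 1 := by
    unfold phi at h
    omega
  unfold cc
  rw [Fr_card_one hN h4, h]
  rfl

lemma rr_le (n : ℕ) : rr n < 6 ∧ rr n ≠ 3 := by
  unfold rr
  split_ifs with h <;> omega

lemma quiet_tempo (hN : ∀ x, 2 ≤ (univ.filter fun v => x ∈ N v).card)
    (h2 : ∀ v, (N v ∩ U).card ≤ 2) (hQ : Quiet N U) (hr : (rest N U).Nonempty) :
    ∃ v, (N v ∩ U).Nonempty ∧ (∀ C ∈ Fr N U, ¬ (N v ∩ C).Nonempty) ∧ gain N U v = 3 := by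
  obtain ⟨x, hx⟩ := hr
  have h1 := quiet_rest hN h2 hQ hx
  obtain ⟨v, hv⟩ := exists_cover hN x
  have hxm := mem_rest.1 hx
  have hvU : (N v ∩ U).Nonempty := ⟨x, mem_inter.2 ⟨hv, hxm.1⟩⟩
  have hout : ∀ C ∈ Fr N U, ¬ (N v ∩ C).Nonempty := by
    rintro C hC ⟨y, hy⟩
    rw [mem_inter] at hy
    have : y ∈ N v ∩ U := mem_inter.2 ⟨hy.1, (mem_Fr.1 hC).1 hy.2⟩
    rw [h1.1 v hv, mem_singleton] at this
    subst this
    exact hxm.2 C hC hy.2
  refine ⟨v, hvU, hout, le_antisymm (hQ v hvU hout) ?_⟩
  have hsub : (univ.filter fun w => x ∈ N w) ⊆ dying N U v := by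
    intro w hw
    have hw' := (mem_filter.1 hw).2
    rw [mem_dying, h1.1 w hw']
    exact ⟨singleton_nonempty x, singleton_subset_iff.2 hv⟩
  have h3 := card_le_card hsub
  rw [h1.2] at h3
  have h4 : (N v ∩ U).card = 1 := by rw [h1.1 v hv]; exact card_singleton x
  unfold gain
  omega

lemma exists_open {C : Finset X} (hN : ∀ x, 2 ≤ (univ.filter fun v => x ∈ N v).card)
    (hC : C ∈ Fr N U) : ∃ v, (N v ∩ C).Nonempty ∧ (N v ∩ U).Nonempty := by
  rw [mem_Fr] at hC
  obtain ⟨x, hx⟩ := hC.2.1.1
  obtain ⟨v, hv⟩ := exists_cover hN x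
  exact ⟨v, ⟨x, mem_inter.2 ⟨hv, hx⟩⟩, ⟨x, mem_inter.2 ⟨hv, hC.1 hx⟩⟩⟩

/-- Moves of Staller. -/
lemma S_step (h2 : ∀ v, (N v ∩ U).card ≤ 2) {v : V} (hv : (N v ∩ U).Nonempty) :
    phi N (U \ N v) + dD (cc N (U \ N v)) + bb N (U \ N v) + 3 ≤ phi N U + dS (cc N U) + bb N U ∧
    phi N (U \ N v) + dD (cc N (U \ N v)) + 3 ≤ phi N U + dS (cc N U) := by
  have hp := phi_step (N := N) (U := U) v
  have hc := cc_lt N U
  have hc' := cc_lt N (U \ N v)
  by_cases hin : ∃ C ∈ Fr N U, (N v ∩ C).Nonempty
  · obtain ⟨C, hC, hvC⟩ := hin
    have h1 := cc_step_in h2 hC hvC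
    have h3 := bb_step_in h2 hC hvC
    have h4 := three_le_gain_of_Fr hC hvC
    have h5 := rr_le (phi N C)
    have h6 : bb N (U \ N v) ≤ bb N U := by omega
    have key : phi N (U \ N v) + dD (cc N (U \ N v)) + 3 ≤ phi N U + dS (cc N U) := by
      unfold dD dS
      split_ifs <;> omega
    exact ⟨by omega, key⟩
  · push Not at hin
    have hin' : ∀ C ∈ Fr N U, ¬ (N v ∩ C).Nonempty := fun C hC => by
      rw [not_nonempty_iff_eq_empty]; exact hin C hC
    have h1 := cc_step_out h2 hin'
    have h3 := bb_step_out h2 hin'
    have h4 := two_le_gain hv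
    have key : phi N (U \ N v) + dD (cc N (U \ N v)) + 3 ≤ phi N U + dS (cc N U) := by
      unfold dD dS
      split_ifs <;> omega
    exact ⟨by omega, key⟩

/-- Moves of Dominator with gain at least four outside the fresh components. -/
lemma D_step_hot (h2 : ∀ v, (N v ∩ U).card ≤ 2) {v : V}
    (hout : ∀ C ∈ Fr N U, ¬ (N v ∩ C).Nonempty) (hg : 4 ≤ gain N U v) :
    phi N (U \ N v) + dS (cc N (U \ N v)) + 3 ≤ phi N U + dD (cc N U) := by
  have hp := phi_step (N := N) (U := U) v
  have hc := cc_lt N U
  have hc' := cc_lt N (U \ N v)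
  have h1 := cc_step_out h2 hout
  unfold dD dS
  split_ifs <;> omega

/-- Tempo moves. -/
lemma D_step_tempo (h2 : ∀ v, (N v ∩ U).card ≤ 2) {v : V}
    (hout : ∀ C ∈ Fr N U, ¬ (N v ∩ C).Nonempty) (hg : gain N U v = 3)
    (h03 : cc N U = 0 ∨ cc N U = 3) :
    phi N (U \ N v) + dS (cc N (U \ N v)) + 3 ≤ phi N U + dD (cc N U) := by
  have hp := phi_step (N := N) (U := U) v
  have hc := cc_lt N U
  have hc' := cc_lt N (U \ N v)
  have h1 := cc_step_out h2 hout
  unfold dD dS
  split_ifs <;> omega

/-- Opening a fresh component which is not critical when `c = 0`. -/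
lemma D_step_open0 (h2 : ∀ v, (N v ∩ U).card ≤ 2) {v : V} {C : Finset X} (hC : C ∈ Fr N U)
    (hv : (N v ∩ C).Nonempty) (h0 : cc N U = 0)
    (h5 : phi N C % 6 ≠ 5 ∨ 4 ≤ gain N U v) :
    phi N (U \ N v) + dS (cc N (U \ N v)) + 3 ≤ phi N U + dD (cc N U) := by
  have hp := phi_step (N := N) (U := U) v
  have hc' := cc_lt N (U \ N v)
  have h1 := cc_step_in h2 hC hv
  have h4 := three_le_gain_of_Fr hC hv
  have h6 : rr (phi N C) < 6 ∧ (phi N C % 6 ≠ 5 → rr (phi N C) ≠ 5) ∧ rr (phi N C) ≠ 3 := by
    unfold rr
    split_ifs with h <;> omega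
  unfold dD dS
  split_ifs <;> omega

/-- Opening a fresh component of class three when `c = 3`. -/
lemma D_step_open3 (h2 : ∀ v, (N v ∩ U).card ≤ 2) {v : V} {C : Finset X} (hC : C ∈ Fr N U)
    (hv : (N v ∩ C).Nonempty) (h0 : cc N U = 3) (h5 : phi N C % 6 = 3) :
    phi N (U \ N v) + dS (cc N (U \ N v)) + 3 ≤ phi N U + dD (cc N U) := by
  have hp := phi_step (N := N) (U := U) v
  have hc' := cc_lt N (U \ N v)
  have h1 := cc_step_in h2 hC hv
  have h4 := three_le_gain_of_Fr hC hv
  have h6 : rr (phi N C) = 0 := by
    unfold rr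
    rw [if_pos h5]
  unfold dD dS
  split_ifs <;> omega

/-- Either there is a good move, or all components are critical fresh components. -/
lemma D_cases (hN : ∀ x, 2 ≤ (univ.filter fun v => x ∈ N v).card)
    (h2 : ∀ v, (N v ∩ U).card ≤ 2) (hU : U ≠ ∅) :
    (∃ v, (N v ∩ U).Nonempty ∧
      phi N (U \ N v) + dS (cc N (U \ N v)) + 3 ≤ phi N U + dD (cc N U)
      ∧ bb N (U \ N v) ≤ bb N U ∧ ∀ C ∈ Fr N U, (N v ∩ C).Nonempty → phi N C % 6 ≠ 5) ∨
    (Quiet N U ∧ cc N U = 0 ∧ rest N U = ∅ ∧ (Fr N U).Nonempty ∧
      ∀ C ∈ Fr N U, phi N C % 6 = 5) := by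
  by_cases hQ : Quiet N U
  · have hcq := cc_quiet hN h2 hQ
    by_cases hr : (rest N U).Nonempty
    · left
      obtain ⟨v, hv, hout, hg⟩ := quiet_tempo hN h2 hQ hr
      refine ⟨v, hv, D_step_tempo h2 hout hg (by omega), (bb_step_out h2 hout).le, ?_⟩
      intro C hC h
      exact absurd h (hout C hC)
    · rw [not_nonempty_iff_eq_empty] at hr
      have hF : (Fr N U).Nonempty := by
        by_contra hF
        rw [not_nonempty_iff_eq_empty] at hF
        have := card_split N U
        rw [hF, hr] at this
        simp only [sum_empty, card_empty] at this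
        exact hU (card_eq_zero.1 this)
      by_cases h3 : cc N U = 3
      · left
        have : ((Fr N U).filter fun C => phi N C % 6 = 3).Nonempty := by
          rw [← card_pos]
          rw [hr, card_empty] at hcq
          omega
        obtain ⟨C, hC⟩ := this
        rw [mem_filter] at hC
        obtain ⟨v, hv, hvU⟩ := exists_open hN hC.1
        refine ⟨v, hvU, D_step_open3 h2 hC.1 hv h3 hC.2, ?_, ?_⟩
        · have := bb_step_in h2 hC.1 hv
          omega
        · intro D hD hvD
          rw [← Fr_unique hC.1 hD hv hvD, hC.2]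
          norm_num
      · have h0 : cc N U = 0 := by omega
        by_cases h5 : ∃ C ∈ Fr N U, phi N C % 6 ≠ 5
        · left
          obtain ⟨C, hC, hC5⟩ := h5
          obtain ⟨v, hv, hvU⟩ := exists_open hN hC
          refine ⟨v, hvU, D_step_open0 h2 hC hv h0 (Or.inl hC5), ?_, ?_⟩
          · have := bb_step_in h2 hC hv
            omega
          · intro D hD hvD
            rw [← Fr_unique hC hD hv hvD]
            exact hC5
        · push Not at h5
          exact Or.inr ⟨hQ, h0, hr, hF, h5⟩
  · left
    unfold Quiet at hQ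
    push Not at hQ
    obtain ⟨v, hv, hout, hg⟩ := hQ
    have hout' : ∀ C ∈ Fr N U, ¬ (N v ∩ C).Nonempty := fun C hC => by
      rw [not_nonempty_iff_eq_empty]; exact hout C hC
    refine ⟨v, hv, D_step_hot h2 hout' (by omega), (bb_step_out h2 hout').le, ?_⟩
    intro C hC h
    exact absurd h (hout' C hC)

/-- The endgame theorem. -/
theorem P2A (hN : ∀ x, 2 ≤ (univ.filter fun v => x ∈ N v).card) (k : ℕ) :
    ∀ U : Finset X, (∀ v, (N v ∩ U).card ≤ 2) →
      (phi N U + dD (cc N U) + bb N U ≤ 3 * k + 3 → CE N k true U) ∧
      (phi N U + dS (cc N U) + bb N U ≤ 3 * k + 3 → CE N k false U) := by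
  induction k with
  | zero =>
    intro U h2
    have key : phi N U + min (dD (cc N U)) (dS (cc N U)) ≤ 3 → U = ∅ := by
      intro h
      by_contra hU
      obtain ⟨h1, h3, h4⟩ := base_aux hN hU
      have h5 : phi N U = 3 := by omega
      rw [h4 h5] at h
      simp [dD, dS] at h
      omega
    constructor
    · intro h
      rw [key (by omega)]; exact CE_empty _ _
    · intro h
      rw [key (by omega)]; exact CE_empty _ _
  | succ k ih =>
    intro U h2
    constructor
    · intro h
      by_cases hU : U = ∅
      · exact Or.inl hU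
      right
      rcases D_cases hN h2 hU with ⟨v, hv, h1, h3, -⟩ | ⟨hQ, h0, hr, ⟨C, hC⟩, h5⟩
      · exact ⟨v, hv, (ih _ (deg_sdiff h2 v)).2 (by omega)⟩
      · obtain ⟨v, hv, hvU⟩ := exists_open hN hC
        refine ⟨v, hvU, (ih _ (deg_sdiff h2 v)).2 ?_⟩
        have h6 := bb_step_in h2 hC hv
        rw [if_pos (h5 C hC)] at h6
        have h7 := phi_step (N := N) (U := U) v
        have h8 := three_le_gain_of_Fr hC hv
        have h9 : dS (cc N (U \ N v)) ≤ 3 := by
          unfold dS
          split_ifs <;> omega
        rw [h0] at h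
        have h10 : dD 0 = 2 := rfl
        omega
    · intro h v hv
      have h1 := (S_step h2 hv).1
      exact (ih _ (deg_sdiff h2 v)).1 (by omega)

/-- The cost of a component. -/
noncomputable def yy (N : V → Finset X) (C : Finset X) : ℕ :=
  if phi N C % 6 = 5 ∧ ¬ WG N C then
    (if C.card = 5 ∧ (alive N C).card = 6 then 6
      else if C.card = 8 ∧ (alive N C).card = 9 then 3 else 0)
  else 0

lemma yy_le (C : Finset X) : yy N C ≤ 6 := by
  unfold yy
  split_ifs <;> omega

lemma yy_sum_out (h2 : ∀ v, (N v ∩ U).card ≤ 2) (v : V) :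
    ∑ C ∈ Fr N (U \ N v), yy N C ≤ ∑ C ∈ Fr N U, yy N C := by
  rw [Fr_sdiff h2]
  exact sum_le_sum_of_subset (filter_subset _ _)

/-- The weighted endgame theorem. -/
theorem P2K (hN : ∀ x, 2 ≤ (univ.filter fun v => x ∈ N v).card)
    (hy : ∀ C : Finset X, Fresh N C → phi N C % 6 = 5 → ¬ WG N C →
      C.card + 13 ≤ 2 * (alive N C).card + yy N C) (k : ℕ) :
    ∀ U : Finset X, (∀ v, (N v ∩ U).card ≤ 2) →
      (12 * phi N U + 3 * (alive N U).card + 12 * dD (cc N U) + ∑ C ∈ Fr N U, yy N C + 1
          ≤ 39 * k + 50 → CE N k true U) ∧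
      (12 * phi N U + 3 * (alive N U).card + 12 * dS (cc N U) + ∑ C ∈ Fr N U, yy N C + 1
          ≤ 39 * k + 50 → CE N k false U) := by
  induction k using Nat.strong_induction_on with
  | _ k ih =>
  intro U h2
  have base : ∀ W : Finset X, 12 * phi N W + 3 * (alive N W).card + 12 + 1 ≤ 50 → W = ∅ := by
    intro W h
    by_contra hW
    obtain ⟨h1, h3, h4⟩ := base_aux hN hW
    omega
  have base' : 12 * phi N U + 3 * (alive N U).card + 12 * min (dD (cc N U)) (dS (cc N U)) + 1 ≤ 50
      → U = ∅ := by
    intro h
    by_contra hU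
    obtain ⟨h1, h3, h4⟩ := base_aux hN hU
    by_cases h5 : phi N U = 3
    · rw [h4 h5] at h
      simp [dD, dS] at h
      omega
    · omega
  constructor
  · intro h
    by_cases hU : U = ∅
    · subst hU; exact CE_empty _ _
    rcases k with _ | k
    · exact absurd (base' (by omega)) hU
    right
    rcases D_cases hN h2 hU with ⟨v, hv, h1, h3, -⟩ | ⟨hQ, h0, hr, hF, h5⟩
    · refine ⟨v, hv, (ih k (by omega) _ (deg_sdiff h2 v)).2 ?_⟩
      have h6 := alive_card_dying (N := N) (U := U) v
      have h7 := one_le_dying (N := N) hv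
      have h8 := yy_sum_out (N := N) h2 v
      omega
    · by_cases hW : ∃ C ∈ Fr N U, WG N C
      · obtain ⟨C, hC, v, hv, hg⟩ := hW
        have hCm := mem_Fr.1 hC
        have hvU : (N v ∩ U).Nonempty := hv.mono (inter_subset_inter_left hCm.1)
        have h6 := alive_card_dying (N := N) (U := U) v
        have h7 := one_le_dying (N := N) hvU
        have h8 := yy_sum_out (N := N) h2 v
        have h9 := hCm.2.2.gain_eq hCm.1 hv
        have h10 := phi_step (N := N) (U := U) v
        have h11 := three_le_gain_of_Fr hC hv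
        by_cases hg4 : 4 ≤ gain N C v
        · refine ⟨v, hvU, (ih k (by omega) _ (deg_sdiff h2 v)).2 ?_⟩
          have := D_step_open0 h2 hC hv h0 (Or.inr (by omega))
          omega
        · have hg3 : gain N U v = 3 := by omega
          have hg' := hg.resolve_left hg4
          refine ⟨v, hvU, ?_⟩
          set U1 := U \ N v with hU1
          set D1 := C \ N v with hD1
          have hcl1 : Cl N U1 D1 := hCm.2.2.sdiff v
          have hD1U : D1 ⊆ U1 := sdiff_subset_sdiff hCm.1 (Subset.refl _)
          have hc1 : cc N U1 = 2 := by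
            have e1 := cc_step_in h2 hC hv
            have e2 : rr (phi N C) = 5 := by
              unfold rr
              rw [if_neg (by rw [h5 C hC]; norm_num), h5 C hC]
            have e3 := cc_lt N U1
            rw [e2, h0, hg3, ← hU1] at e1
            omega
          have h21 : ∀ w, (N w ∩ U1).card ≤ 2 := deg_sdiff h2 v
          have hd0 : dD 0 = 2 := rfl
          rw [h0, hd0] at h
          rcases k with _ | k
          · have : U1 = ∅ := base _ (by omega)
            rw [this]; exact CE_empty _ _
          · intro u hu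
            have e5 := alive_card_dying (N := N) (U := U1) u
            have e6 := one_le_dying (N := N) hu
            have e7 := phi_step (N := N) (U := U1) u
            have e8 := yy_sum_out (N := N) h21 u
            have h22 := deg_sdiff h21 u
            by_cases hgu : gain N U1 u ≤ 2
            · -- tight answer
              have hgu2 := two_le_gain hu
              have huD : (N u ∩ D1).Nonempty := by
                by_contra hne
                rw [not_nonempty_iff_eq_empty] at hne
                obtain ⟨x, hx⟩ := hu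
                rw [mem_inter] at hx
                have hxU : x ∈ U := (mem_sdiff.1 hx.2).1
                have hex : ∃ C' ∈ Fr N U, x ∈ C' := by
                  by_contra hno
                  push Not at hno
                  have : x ∈ rest N U := mem_rest.2 ⟨hxU, hno⟩
                  rw [hr] at this
                  exact notMem_empty _ this
                obtain ⟨C', hC', hxC'⟩ := hex
                have hCC : C' ≠ C := by
                  rintro rfl
                  have : x ∈ N u ∩ D1 := mem_inter.2 ⟨hx.1, mem_sdiff.2 ⟨hxC', (mem_sdiff.1 hx.2).2⟩⟩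
                  rw [hne] at this
                  exact notMem_empty _ this
                have hC'1 : C' ∈ Fr N U1 := by
                  rw [hU1, Fr_sdiff_in h2 hC hv]
                  exact mem_erase.2 ⟨hCC, hC'⟩
                have := three_le_gain_of_Fr hC'1 ⟨x, mem_inter.2 ⟨hx.1, hxC'⟩⟩
                omega
              obtain ⟨w, hw, hgw⟩ := hg' u huD (by rw [← hcl1.gain_eq hD1U huD]; exact hgu)
              set U2 := U1 \ N u with hU2
              set D2 := D1 \ N u with hD2
              have hcl2 : Cl N U2 D2 := hcl1.sdiff u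
              have hD2U : D2 ⊆ U2 := sdiff_subset_sdiff hD1U (Subset.refl _)
              rcases k with _ | k
              · have : U2 = ∅ := base _ (by omega)
                rw [this]; exact CE_empty _ _
              · right
                have hwU : (N w ∩ U2).Nonempty := hw.mono (inter_subset_inter_left hD2U)
                refine ⟨w, hwU, (ih k (by omega) _ (deg_sdiff h22 w)).2 ?_⟩
                have f5 := alive_card_dying (N := N) (U := U2) w
                have f6 := one_le_dying (N := N) hwU
                have f7 := phi_step (N := N) (U := U2) w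
                have f8 := yy_sum_out (N := N) h22 w
                have f9 : gain N D2 w = gain N U2 w := (hcl2.gain_eq hD2U hw).symm
                have f10 : 5 ≤ gain N U2 w := by rw [← f9]; exact hgw
                -- the class
                have hc2 : (cc N U2 + gain N U1 u) % 6 = cc N U1 := by
                  refine cc_step_out h21 ?_
                  intro C' hC' huC'
                  have := three_le_gain_of_Fr hC' huC'
                  omega
                have hc2' := cc_lt N U2
                have hout3 : ∀ C' ∈ Fr N U2, ¬ (N w ∩ C').Nonempty := by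
                  intro C' hC' hwC'
                  rw [hU2, Fr_sdiff h21, mem_filter] at hC'
                  have hC'' := hC'.1
                  rw [hU1, Fr_sdiff_in h2 hC hv, mem_erase] at hC''
                  have hwC : (N w ∩ C).Nonempty := by
                    refine hw.mono (inter_subset_inter_left ?_)
                    exact sdiff_subset.trans sdiff_subset
                  exact hC''.1 (Fr_unique hC''.2 hC hwC' hwC)
                have hc3 := cc_step_out h22 hout3
                have hc3' := cc_lt N (U2 \ N w)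
                have hds : dS (cc N (U2 \ N w)) ≤ 3 := by
                  unfold dS
                  split_ifs <;> omega
                by_cases hg5 : gain N U2 w = 5
                · have : cc N (U2 \ N w) = 1 := by omega
                  rw [this]
                  have hd1 : dS 1 = 2 := rfl
                  omega
                · omega
            · refine (ih k (by omega) _ h22).1 ?_
              have e9 := (S_step h21 hu).2
              rw [hc1] at e9
              have hds2 : dS 2 = 3 := rfl
              -- the special value: everything else is at most one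
              have e10 : 12 * dD (cc N (U1 \ N u)) + 12 * phi N (U1 \ N u) ≤ 12 * phi N U1 - 12 := by
                have g1 : 3 ≤ gain N U1 u := by omega
                have g2 : dD (cc N (U1 \ N u)) ≤ 2 := by
                  unfold dD
                  split_ifs <;> omega
                omega
              omega
      · -- only bad components
        push Not at hW
        have hA : CE N (k + 1) true U := by
          refine (P2A hN (k + 1) U h2).1 ?_
          have hphi := sum_phi_quiet hN h2 hQ
          have hal := alive_split hN h2 hQ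
          rw [hr, card_empty] at hphi hal
          have hb : bb N U = (Fr N U).card := by
            unfold bb
            rw [filter_true_of_mem h5]
          have hsum : ∑ C ∈ Fr N U, (phi N C + 13) ≤
              ∑ C ∈ Fr N U, (3 * (alive N C).card + yy N C) := by
            refine sum_le_sum fun C hC => ?_
            have := hy C (mem_Fr.1 hC).2.1 (h5 C hC) (hW C hC)
            unfold phi
            omega
          rw [sum_add_distrib, sum_add_distrib, sum_const, smul_eq_mul, ← mul_sum] at hsum
          have hd0 : dD 0 = 2 := rfl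
          rw [h0, hd0] at h ⊢
          omega
        rcases hA with hA | hA
        · exact absurd hA hU
        · exact hA
  · intro h
    rcases k with _ | k
    · rw [base' (by omega)]; exact CE_empty _ _
    intro v hv
    refine (ih k (by omega) _ (deg_sdiff h2 v)).1 ?_
    have h1 := (S_step h2 hv).2
    have h6 := alive_card_dying (N := N) (U := U) v
    have h7 := one_le_dying (N := N) hv
    have h8 := yy_sum_out (N := N) h2 v
    omega

end Helper77.TDG
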