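import Mathlib
import Pool.Agent.Helper77_TDG2.Phase2

/-!
# The first phase: Dominator plays vertices covering at least three uncovered targets
-/

set_option linter.unusedSectionVars false

namespace Helper77.TDG

open Finset Classical

variable {V X : Type*} [Fintype V] [DecidableEq V] [DecidableEq X]
variable {N : V → Finset X} {U : Finset X}

theorem P1 (hN : ∀ x, 2 ≤ (univ.filter fun v => x ∈ N v).card)
    (hy : ∀ C : Finset X, Fresh N C → phi N C % 6 = 5 → ¬ WG N C →
      C.card + 13 ≤ 2 * (alive N C).card + yy N C)
    (K : ℕ) (hK : ∀ U : Finset X, ∑ C ∈ Fr N U, yy N C + 1 ≤ K) (k : ℕ) :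
    ∀ U : Finset X,
      (12 * U.card + 15 * (alive N U).card + 12 + K ≤ 39 * k + 38 → CE N k true U) ∧
      (12 * U.card + 15 * (alive N U).card + 24 + K ≤ 39 * k + 38 → CE N k false U) := by
  induction k with
  | zero =>
    intro U
    have key : 12 * U.card + 15 * (alive N U).card ≤ 26 → U = ∅ := by
      intro h
      by_contra hU
      obtain ⟨h1, h3, -⟩ := base_aux hN hU
      omega
    constructor
    · intro h
      rw [key (by omega)]; exact CE_empty _ _
    · intro h
      rw [key (by omega)]; exact CE_empty _ _
  | succ k ih =>
    intro U
    have hKU := hK U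
    by_cases h2 : ∀ v, (N v ∩ U).card ≤ 2
    · have h3 := P2K hN hy (k + 1) U h2
      have h4 : dD (cc N U) ≤ 2 := by unfold dD; split_ifs <;> omega
      have h5 : dS (cc N U) ≤ 3 := by unfold dS; split_ifs <;> omega
      constructor
      · intro h
        refine h3.1 ?_
        unfold phi
        omega
      · intro h
        refine h3.2 ?_
        unfold phi
        omega
    · constructor
      · intro h
        push Not at h2
        obtain ⟨v, hv⟩ := h2
        right
        have hvU : (N v ∩ U).Nonempty := card_pos.1 (by omega)
        refine ⟨v, hvU, (ih _).2 ?_⟩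
        have h3 := card_step (N := N) (U := U) v
        have h4 := alive_card_step hvU
        omega
      · intro h v hvU
        refine (ih _).1 ?_
        have h3 := card_step (N := N) (U := U) v
        have h4 := alive_card_step hvU
        have h5 := card_pos.2 hvU
        omega

end Helper77.TDG
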