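import Mathlib
import Pool.Agent.Helper77_TDG2.Phase1
import Pool.Agent.Helper77_TDG2.Phase0

/-!
# Combination of the three phases
-/

set_option linter.unusedSectionVars false

namespace Helper77.TDG

open Finset Classical

section
variable {V X : Type*} [Fintype V] [DecidableEq V] [DecidableEq X]
variable {N : V → Finset X}

lemma double_count {C : Finset X} (hC : Fresh N C) :
    ∑ x ∈ C, (cov N x).card = 2 * (alive N C).card := by
  have h1 : ∑ x ∈ C, (cov N x).card = ∑ v ∈ alive N C, (N v ∩ C).card := by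
    have e1 : ∀ x ∈ C, (cov N x).card = ∑ v ∈ alive N C, if x ∈ N v then 1 else 0 := by
      intro x hx
      rw [← card_filter]
      congr 1
      ext v
      simp only [cov, mem_filter, mem_univ, true_and]
      constructor
      · intro h
        exact ⟨mem_alive.2 ⟨x, mem_inter.2 ⟨h, hx⟩⟩, h⟩
      · exact fun h => h.2
    rw [sum_congr rfl e1, sum_comm]
    refine sum_congr rfl fun v _ => ?_
    rw [← card_filter]
    congr 1
    ext x
    simp only [mem_filter, mem_inter]
    tauto
  rw [h1, sum_congr rfl (fun v hv => hC.2.1 v (mem_alive.1 hv)), sum_const, smul_eq_mul, mul_comm]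

lemma card_le_alive {C : Finset X} (hN : ∀ x, 2 ≤ (univ.filter fun v => x ∈ N v).card)
    (hC : Fresh N C) : C.card ≤ (alive N C).card := by
  have h1 := double_count hC
  have h2 : ∑ x ∈ C, 2 ≤ ∑ x ∈ C, (cov N x).card := sum_le_sum fun x _ => hN x
  rw [sum_const, smul_eq_mul] at h2
  omega

lemma cost_lemma (hN : ∀ x, 2 ≤ (univ.filter fun v => x ∈ N v).card)
    (E0 : ∀ C : Finset X, Fresh N C →
      (C.card = 2 ∧ (alive N C).card = 3 ∨ C.card = 4 ∧ (alive N C).card = 7) → WG N C)
    (C : Finset X) (hC : Fresh N C) (h5 : phi N C % 6 = 5) (hW : ¬ WG N C) :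
    C.card + 13 ≤ 2 * (alive N C).card + yy N C := by
  have h1 := card_le_alive hN hC
  have h2 := two_le_Fresh hN hC
  have h3 : ¬ (C.card = 2 ∧ (alive N C).card = 3 ∨ C.card = 4 ∧ (alive N C).card = 7) :=
    fun h => hW (E0 C hC h)
  have h4 : yy N C = (if C.card = 5 ∧ (alive N C).card = 6 then 6
      else if C.card = 8 ∧ (alive N C).card = 9 then 3 else 0) := by
    unfold yy
    rw [if_pos ⟨h5, hW⟩]
  rw [h4]
  unfold phi at h5
  split_ifs <;> omega

end

section
variable {V : Type*} [Fintype V] [DecidableEq V]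
variable {N : V → Finset V}

lemma cov_eq (hsym : ∀ v x, x ∈ N v ↔ v ∈ N x) : cov N = N := by
  funext x
  ext v
  simp only [cov, mem_filter, mem_univ, true_and]
  exact hsym v x

theorem main (hsym : ∀ v x, x ∈ N v ↔ v ∈ N x)
    (hN : ∀ x, 2 ≤ (univ.filter fun v => x ∈ N v).card)
    (E0 : ∀ C : Finset V, Fresh N C →
      (C.card = 2 ∧ (alive N C).card = 3 ∨ C.card = 4 ∧ (alive N C).card = 7) → WG N C)
    (E1 : ∀ C : Finset V, Fresh N C → C.card = 5 → (alive N C).card = 6 → ¬ WG N C →
      DualGood (cov N) C (alive N C) 6)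
    (E2 : ∀ C : Finset V, Fresh N C → C.card = 8 → (alive N C).card = 9 → ¬ WG N C →
      DualGood (cov N) C (alive N C) 3)
    (k : ℕ) (hk : 27 * Fintype.card V + 13 ≤ 39 * k + 38) : CE N k true (univ : Finset V) := by
  have hy := cost_lemma hN E0
  obtain ⟨W, -, hW⟩ := exists_max_image (univ : Finset (Finset V))
    (fun U => ∑ C ∈ Fr N U, yy N C) ⟨∅, mem_univ _⟩
  set K := ∑ C ∈ Fr N W, yy N C + 1 with hK
  have hP := P1 hN hy K (fun U => by have := hW U (mem_univ _); omega)
  set A := (Fr N W).filter fun C => yy N C ≠ 0 with hA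
  have hsum : ∑ C ∈ A, yy N C = ∑ C ∈ Fr N W, yy N C := by
    rw [hA]
    exact sum_filter_ne_zero _
  have hal : (alive N (univ : Finset V)).card ≤ Fintype.card V := card_le_univ _
  refine phase0 hsym hN K (fun k U => (hP k U).1) (yy N) k A univ
    (fun C _ => yy_le C) ?_ ?_ ?_
  · intro C hC D hD hne
    exact Fr_alive_disjoint (mem_filter.1 hC).1 (mem_filter.1 hD).1 hne
  · intro C hC
    rw [mem_filter] at hC
    rw [univ_inter]
    have hCF := (mem_Fr.1 hC.1).2.1
    have h1 := E1 C hCF
    have h2 := E2 C hCF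
    rw [cov_eq hsym] at h1 h2
    have h3 := hC.2
    unfold yy at h3 ⊢
    split_ifs at h3 ⊢ with g1 g2 g3
    · exact h1 g2.1 g2.2 g1.2
    · exact h2 g3.1 g3.2 g1.2
    · exact absurd rfl h3
    · exact absurd rfl h3
  · rw [card_univ, hsum]
    omega

end

end Helper77.TDG
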