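import Mathlib
import Pool.Agent.Helper77_TDG2.Fin

/-!
# Small critical components: 8 targets and 9 players
-/

set_option linter.unusedSectionVars false

namespace Helper77.TDG

open Finset Classical

variable {V X : Type*} [Fintype V] [DecidableEq V] [DecidableEq X]
variable {N : V → Finset X} {C : Finset X}

/-- Neighbours in the graph on `C` whose edges are the players. -/
noncomputable def nb (N : V → Finset X) (C : Finset X) (x : X) : Finset X :=
  C.filter fun y => y ≠ x ∧ ∃ v, N v ∩ C = {x, y}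

lemma mem_nb {x y : X} : y ∈ nb N C x ↔ y ∈ C ∧ y ≠ x ∧ ∃ v, N v ∩ C = {x, y} := by
  simp [nb]

lemma nb_symm {x y : X} (hx : x ∈ C) (h : y ∈ nb N C x) : x ∈ nb N C y := by
  rw [mem_nb] at h ⊢
  obtain ⟨h1, h2, v, hv⟩ := h
  exact ⟨hx, h2.symm, v, by rw [hv, pair_comm]⟩

lemma edge_of (hF : Fresh N C) {x : X} {v : V} (hx : x ∈ C) (hv : x ∈ N v) :
    ∃ y ∈ C, y ≠ x ∧ N v ∩ C = {x, y} := by
  have h1 := hF.2.1 v ⟨x, mem_inter.2 ⟨hv, hx⟩⟩
  obtain ⟨a, b, hab, hs⟩ := card_eq_two.1 h1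
  have hxm : x ∈ N v ∩ C := mem_inter.2 ⟨hv, hx⟩
  rw [hs, mem_insert, mem_singleton] at hxm
  have hmem : ∀ z, z ∈ N v ∩ C → z ∈ C := fun z hz => (mem_inter.1 hz).2
  rcases hxm with rfl | rfl
  · exact ⟨b, hmem b (by rw [hs]; simp), hab.symm, hs⟩
  · exact ⟨a, hmem a (by rw [hs]; simp), hab, by rw [hs, pair_comm]⟩

/-- No double edge. -/
def ND (N : V → Finset X) (C : Finset X) : Prop :=
  ∀ v w, (N v ∩ C).Nonempty → N v ∩ C = N w ∩ C → v = w

lemma nd_of_not_WG (hF : Fresh N C) (hW : ¬ WG N C) : ND N C := by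
  intro v w hv hvw
  by_contra hne
  apply hW
  refine ⟨v, hv, Or.inl ?_⟩
  have h1 := hF.2.1 v hv
  have h2 : ({v, w} : Finset V) ⊆ dying N C v := by
    intro u hu
    rw [mem_insert, mem_singleton] at hu
    rcases hu with rfl | rfl
    · exact self_mem_dying hv
    · rw [mem_dying, ← hvw]
      exact ⟨hv, inter_subset_left⟩
  have h3 := card_le_card h2
  rw [card_pair hne] at h3
  unfold gain
  omega

lemma nb_card (hF : Fresh N C) (hD : ND N C) {x : X} (hx : x ∈ C) :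
    (nb N C x).card = (cov N x).card := by
  have h1 : ((cov N x).image fun v => N v ∩ C).card = (cov N x).card := by
    apply card_image_of_injOn
    intro v hv w hw h
    have hv' : x ∈ N v := (mem_filter.1 hv).2
    exact hD v w ⟨x, mem_inter.2 ⟨hv', hx⟩⟩ h
  have h2 : ((nb N C x).image fun y => ({x, y} : Finset X)).card = (nb N C x).card := by
    apply card_image_of_injOn
    intro y hy z hz h
    have hy' := (mem_nb.1 hy).2.1
    have : y ∈ ({x, z} : Finset X) := by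
      simp only at h
      rw [← h]; simp
    rw [mem_insert, mem_singleton] at this
    exact this.resolve_left hy'
  rw [← h1, ← h2]
  congr 1
  ext S
  rw [mem_image, mem_image]
  constructor
  · rintro ⟨y, hy, rfl⟩
    obtain ⟨hyC, hne, v, hv⟩ := mem_nb.1 hy
    refine ⟨v, ?_, hv⟩
    have : x ∈ N v ∩ C := by rw [hv]; simp
    exact mem_filter.2 ⟨mem_univ _, (mem_inter.1 this).1⟩
  · rintro ⟨v, hv, rfl⟩
    obtain ⟨y, hyC, hne, hs⟩ := edge_of hF hx (mem_filter.1 hv).2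
    exact ⟨y, mem_nb.2 ⟨hyC, hne, v, hs⟩, hs.symm⟩

/-- Tight answers to the opening `v`. -/
lemma tight (hF : Fresh N C) {v u : V} (hne : (N u ∩ (C \ N v)).Nonempty)
    (hg : gain N (C \ N v) u ≤ 2) :
    ∃ p q, p ∈ C ∧ p ∉ N v ∧ q ∈ C ∧ q ∈ N v ∧ p ≠ q ∧ N u ∩ C = {p, q} ∧
      ∀ q' ∈ C, q' ∈ N v → q' ∈ nb N C p → q' = q := by
  have h1 := card_pos.2 hne
  have h2 := one_le_dying (N := N) hne
  unfold gain at hg
  have h3 : (N u ∩ (C \ N v)).card = 1 := by omega
  have h4 : (dying N (C \ N v) u).card = 1 := by omega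
  obtain ⟨p, hp⟩ := card_eq_one.1 h3
  have hpm : p ∈ N u ∩ (C \ N v) := by rw [hp]; exact mem_singleton_self p
  rw [mem_inter, mem_sdiff] at hpm
  obtain ⟨q, hqC, hqp, hs⟩ := edge_of hF hpm.2.1 hpm.1
  have hqu : q ∈ N u := by
    have : q ∈ N u ∩ C := by rw [hs]; simp
    exact (mem_inter.1 this).1
  have hqv : q ∈ N v := by
    by_contra hqv
    have : q ∈ N u ∩ (C \ N v) := mem_inter.2 ⟨hqu, mem_sdiff.2 ⟨hqC, hqv⟩⟩
    rw [hp, mem_singleton] at this
    exact hqp this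
  refine ⟨p, q, hpm.2.1, hpm.2.2, hqC, hqv, hqp.symm, hs, ?_⟩
  intro q' hq'C hq'v hq'
  obtain ⟨-, hne', u', hu'⟩ := mem_nb.1 hq'
  have hpu' : p ∈ N u' ∩ C := by rw [hu']; simp
  have h5 : N u' ∩ (C \ N v) = {p} := by
    ext z
    rw [mem_inter, mem_sdiff, mem_singleton]
    constructor
    · rintro ⟨a, b, c⟩
      have : z ∈ N u' ∩ C := mem_inter.2 ⟨a, b⟩
      rw [hu', mem_insert, mem_singleton] at this
      rcases this with h | h
      · exact h
      · subst h; exact absurd hq'v c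
    · rintro rfl
      exact ⟨(mem_inter.1 hpu').1, hpm.2.1, hpm.2.2⟩
  have h6 : u' ∈ dying N (C \ N v) u := by
    rw [mem_dying, h5]
    exact ⟨singleton_nonempty p, singleton_subset_iff.2 hpm.1⟩
  have h7 : u ∈ dying N (C \ N v) u := self_mem_dying hne
  obtain ⟨d, hd⟩ := card_eq_one.1 h4
  rw [hd, mem_singleton] at h6 h7
  have : N u' ∩ C = N u ∩ C := by rw [h6, h7]
  rw [hu', hs] at this
  have h8 : q' ∈ ({p, q} : Finset X) := by rw [← this]; simp
  rw [mem_insert, mem_singleton] at h8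
  exact h8.resolve_left hne'

/-- A move with gain five after two moves. -/
lemma gain5 {v u w w1 w2 : V} {v1 v2 p q s t s2 r1 r2 : X}
    (hv : N v ∩ C = {v1, v2}) (hu : N u ∩ C = {p, q}) (hq : q = v1 ∨ q = v2)
    (hs : s ≠ v1 ∧ s ≠ v2 ∧ s ≠ p) (ht : t ≠ v1 ∧ t ≠ v2 ∧ t ≠ p) (hst : s ≠ t)
    (hw : N w ∩ C = {s, t}) (hs2 : s2 = s ∨ s2 = t)
    (hw1 : N w1 ∩ C = {s, r1}) (hr1 : r1 = v1 ∨ r1 = v2 ∨ r1 = p)
    (hw2 : N w2 ∩ C = {s2, r2}) (hr2 : r2 = v1 ∨ r2 = v2 ∨ r2 = p)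
    (h12 : s2 = s → r1 ≠ r2) :
    (N w ∩ ((C \ N v) \ N u)).Nonempty ∧ 5 ≤ gain N ((C \ N v) \ N u) w := by
  have hmem : ∀ z, z ∈ (C \ N v) \ N u ↔ z ∈ C ∧ z ≠ v1 ∧ z ≠ v2 ∧ z ≠ p := by
    intro z
    rw [mem_sdiff, mem_sdiff]
    constructor
    · rintro ⟨⟨a, b⟩, c⟩
      have hv' : z ∉ N v ∩ C := fun h => b (mem_inter.1 h).1
      have hu' : z ∉ N u ∩ C := fun h => c (mem_inter.1 h).1
      rw [hv, mem_insert, mem_singleton, not_or] at hv'
      rw [hu, mem_insert, mem_singleton, not_or] at hu'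
      exact ⟨a, hv'.1, hv'.2, hu'.1⟩
    · rintro ⟨a, b, c, d⟩
      have hv' : z ∉ N v ∩ C := by
        rw [hv, mem_insert, mem_singleton, not_or]; exact ⟨b, c⟩
      have hu' : z ∉ N u ∩ C := by
        rw [hu, mem_insert, mem_singleton, not_or]
        refine ⟨d, ?_⟩
        rcases hq with rfl | rfl
        · exact b
        · exact c
      exact ⟨⟨a, fun h => hv' (mem_inter.2 ⟨h, a⟩)⟩, fun h => hu' (mem_inter.2 ⟨h, a⟩)⟩
  set D := (C \ N v) \ N u with hD
  have hDC : D ⊆ C := sdiff_subset.trans sdiff_subset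
  have hsC : s ∈ C := by
    have : s ∈ N w ∩ C := by rw [hw]; simp
    exact (mem_inter.1 this).2
  have htC : t ∈ C := by
    have : t ∈ N w ∩ C := by rw [hw]; simp
    exact (mem_inter.1 this).2
  have hsD : s ∈ D := (hmem s).2 ⟨hsC, hs⟩
  have htD : t ∈ D := (hmem t).2 ⟨htC, ht⟩
  have hsw : s ∈ N w := by
    have : s ∈ N w ∩ C := by rw [hw]; simp
    exact (mem_inter.1 this).1
  have htw : t ∈ N w := by
    have : t ∈ N w ∩ C := by rw [hw]; simp
    exact (mem_inter.1 this).1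
  have hs2D : s2 ∈ D := by
    rcases hs2 with rfl | rfl
    · exact hsD
    · exact htD
  have hs2w : s2 ∈ N w := by
    rcases hs2 with rfl | rfl
    · exact hsw
    · exact htw
  have hcard : 2 ≤ (N w ∩ D).card := by
    have : ({s, t} : Finset X) ⊆ N w ∩ D := by
      intro z hz
      rw [mem_insert, mem_singleton] at hz
      rcases hz with rfl | rfl
      · exact mem_inter.2 ⟨hsw, hsD⟩
      · exact mem_inter.2 ⟨htw, htD⟩
    have := card_le_card this
    rwa [card_pair hst] at this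
  have hr1D : r1 ∉ D := by
    rw [hmem]
    rintro ⟨-, a, b, c⟩
    rcases hr1 with h | h | h
    · exact a h
    · exact b h
    · exact c h
  have hr2D : r2 ∉ D := by
    rw [hmem]
    rintro ⟨-, a, b, c⟩
    rcases hr2 with h | h | h
    · exact a h
    · exact b h
    · exact c h
  have priv : ∀ (w' : V) (a r : X), N w' ∩ C = {a, r} → a ∈ D → r ∉ D → a ∈ N w →
      w' ∈ dying N D w := by
    intro w' a r h1 haD hrD haw
    have ha' : a ∈ N w' := by
      have : a ∈ N w' ∩ C := by rw [h1]; simp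
      exact (mem_inter.1 this).1
    rw [mem_dying]
    refine ⟨⟨a, mem_inter.2 ⟨ha', haD⟩⟩, ?_⟩
    intro z hz
    have h2 : z ∈ N w' ∩ C := mem_inter.2 ⟨(mem_inter.1 hz).1, hDC (mem_inter.1 hz).2⟩
    rw [h1, mem_insert, mem_singleton] at h2
    rcases h2 with rfl | rfl
    · exact haw
    · exact absurd (mem_inter.1 hz).2 hrD
  have hwne : (N w ∩ D).Nonempty := ⟨s, mem_inter.2 ⟨hsw, hsD⟩⟩
  have d0 : w ∈ dying N D w := self_mem_dying hwne
  have d1 := priv w1 s r1 hw1 hsD hr1D hsw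
  have d2 := priv w2 s2 r2 hw2 hs2D hr2D hs2w
  have n01 : w ≠ w1 := by
    rintro rfl
    rw [hw] at hw1
    have : t ∈ ({s, r1} : Finset X) := by rw [← hw1]; simp
    rw [mem_insert, mem_singleton] at this
    rcases this with h | h
    · exact hst h.symm
    · subst h; exact hr1D htD
  have n02 : w ≠ w2 := by
    rintro rfl
    rw [hw] at hw2
    have h1 : r2 ∈ ({s, t} : Finset X) := by rw [hw2]; simp
    rw [mem_insert, mem_singleton] at h1
    rcases h1 with h | h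
    · subst h; exact hr2D hsD
    · subst h; exact hr2D htD
  have n12 : w1 ≠ w2 := by
    rintro rfl
    rw [hw1] at hw2
    rcases hs2 with rfl | rfl
    · have h1 : r1 ∈ ({s2, r2} : Finset X) := by rw [← hw2]; simp
      rw [mem_insert, mem_singleton] at h1
      rcases h1 with h | h
      · subst h; exact hr1D hsD
      · exact h12 rfl h
    · have h1 : s2 ∈ ({s, r1} : Finset X) := by rw [hw2]; simp
      rw [mem_insert, mem_singleton] at h1
      rcases h1 with h | h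
      · exact hst h.symm
      · subst h; exact hr1D htD
  refine ⟨hwne, ?_⟩
  have h3 : ({w, w1, w2} : Finset V) ⊆ dying N D w := by
    intro z hz
    simp only [mem_insert, mem_singleton] at hz
    rcases hz with rfl | rfl | rfl
    · exact d0
    · exact d1
    · exact d2
  have h4 := card_le_card h3
  rw [card_insert_of_notMem (by simp [n01, n02]), card_pair n12] at h4
  unfold gain
  omega

/-- Rule (b): a triangle with two vertices of degree two. -/
lemma rule_b (hF : Fresh N C) {z m1 m2 : X} (hm1 : m1 ∈ C) (hm2 : m2 ∈ C)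
    (h1 : nb N C m1 = {m2, z}) (h2 : nb N C m2 = {m1, z}) (hz : z ≠ m1) (hz2 : z ≠ m2) :
    WG N C := by
  have e := (mem_nb.1 (show m2 ∈ nb N C m1 by rw [h1]; simp))
  obtain ⟨-, hne, v, hv⟩ := e
  have hvne : (N v ∩ C).Nonempty := by rw [hv]; exact ⟨m1, by simp⟩
  refine ⟨v, hvne, Or.inr ?_⟩
  intro u hu hg
  exfalso
  obtain ⟨p, q, hpC, hpv, hqC, hqv, hpq, hs, huniq⟩ := tight hF hu hg
  have hvm : ∀ x ∈ C, (x ∈ N v ↔ x = m1 ∨ x = m2) := by
    intro x hx
    constructor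
    · intro h
      have : x ∈ N v ∩ C := mem_inter.2 ⟨h, hx⟩
      rw [hv, mem_insert, mem_singleton] at this
      exact this
    · intro h
      have : x ∈ N v ∩ C := by rw [hv, mem_insert, mem_singleton]; exact h
      exact (mem_inter.1 this).1
  have hpm : p ≠ m1 ∧ p ≠ m2 := by
    rw [hvm p hpC, not_or] at hpv; exact hpv
  have hpq' : p ∈ nb N C q := mem_nb.2 ⟨hpC, hpq, u, by rw [hs, pair_comm]⟩
  have hpz : p = z := by
    rcases (hvm q hqC).1 hqv with rfl | rfl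
    · rw [h1, mem_insert, mem_singleton] at hpq'
      exact hpq'.resolve_left hpm.2
    · rw [h2, mem_insert, mem_singleton] at hpq'
      exact hpq'.resolve_left hpm.1
  subst hpz
  have a1 : m1 = q := by
    refine huniq m1 hm1 ((hvm m1 hm1).2 (Or.inl rfl)) ?_
    exact nb_symm hm1 (by rw [h1]; simp)
  have a2 : m2 = q := by
    refine huniq m2 hm2 ((hvm m2 hm2).2 (Or.inr rfl)) ?_
    exact nb_symm hm2 (by rw [h2]; simp)
  exact hne (a2.trans a1.symm)

/-- Rule (c). -/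
lemma rule_c (hF : Fresh N C) {a b m x y : X} (ha : a ∈ C) (hb : b ∈ C) (hm : m ∈ C)
    (hna : nb N C a = {b, m, x}) (hnb : nb N C b = {a, m, y}) (hnm : nb N C m = {a, b})
    (hxy : x ≠ y) (hxb : x ≠ b) (hxm : x ≠ m) (hya : y ≠ a) (hym : y ≠ m) :
    WG N C := by
  have e := (mem_nb.1 (show b ∈ nb N C m by rw [hnm]; simp))
  obtain ⟨-, hbm, v, hv⟩ := e
  have hvne : (N v ∩ C).Nonempty := by rw [hv]; exact ⟨m, by simp⟩
  have hab : a ≠ b := (mem_nb.1 (show a ∈ nb N C b by rw [hnb]; simp)).2.1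
  have ham : a ≠ m := (mem_nb.1 (show a ∈ nb N C m by rw [hnm]; simp)).2.1
  refine ⟨v, hvne, Or.inr ?_⟩
  intro u hu hg
  obtain ⟨p, q, hpC, hpv, hqC, hqv, hpq, hs, huniq⟩ := tight hF hu hg
  have hvm : ∀ x ∈ C, (x ∈ N v ↔ x = m ∨ x = b) := by
    intro x hx
    constructor
    · intro h
      have : x ∈ N v ∩ C := mem_inter.2 ⟨h, hx⟩
      rw [hv, mem_insert, mem_singleton] at this
      exact this
    · intro h
      have : x ∈ N v ∩ C := by rw [hv, mem_insert, mem_singleton]; exact h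
      exact (mem_inter.1 this).1
  have hpm : p ≠ m ∧ p ≠ b := by
    rw [hvm p hpC, not_or] at hpv; exact hpv
  have hpq' : p ∈ nb N C q := mem_nb.2 ⟨hpC, hpq, u, by rw [hs, pair_comm]⟩
  have hpa : p ≠ a := by
    rintro rfl
    have a1 : m = q := by
      refine huniq m hm ((hvm m hm).2 (Or.inl rfl)) ?_
      rw [hna]; simp
    have a2 : b = q := by
      refine huniq b hb ((hvm b hb).2 (Or.inr rfl)) ?_
      rw [hna]; simp
    exact hbm (a2.trans a1.symm)
  have hqb : q = b := by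
    rcases (hvm q hqC).1 hqv with rfl | rfl
    · rw [hnm, mem_insert, mem_singleton] at hpq'
      exact absurd hpq' (by rintro (h | h); exacts [hpa h, hpm.2 h])
    · rfl
  subst hqb
  have hpy : p = y := by
    rw [hnb] at hpq'
    simp only [mem_insert, mem_singleton] at hpq'
    rcases hpq' with h | h | h
    · exact absurd h hpa
    · exact absurd h hpm.1
    · exact h
  subst hpy
  obtain ⟨-, hxa, w, hw⟩ := mem_nb.1 (show x ∈ nb N C a by rw [hna]; simp)
  obtain ⟨-, -, w1, hw1⟩ := mem_nb.1 (show q ∈ nb N C a by rw [hna]; simp)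
  obtain ⟨-, -, w2, hw2⟩ := mem_nb.1 (show m ∈ nb N C a by rw [hna]; simp)
  refine ⟨w, gain5 (s := a) (t := x) (s2 := a) (r1 := q) (r2 := m) hv hs (Or.inr rfl)
    ⟨ham, hab, hpa.symm⟩ ⟨hxm, hxb, hxy⟩ hxa.symm hw (Or.inl rfl) hw1 (Or.inr (Or.inl rfl)) hw2
    (Or.inl rfl) (fun _ => hbm)⟩

/-- Rule (d). -/
lemma rule_d (hF : Fresh N C) {a b x y x' y' : X} (ha : a ∈ C) (hb : b ∈ C) (hx : x ∈ C)
    (hy : y ∈ C) (hna : nb N C a = {b, x, x'}) (hnb : nb N C b = {a, y, y'})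
    (hnx : nb N C x = {a, y}) (hny : nb N C y = {b, x})
    (hx'b : x' ≠ b) (hx'x : x' ≠ x) (hy'a : y' ≠ a) (hy'y : y' ≠ y) (hay : a ≠ y) (hbx : b ≠ x) :
    WG N C := by
  obtain ⟨-, hyx, v, hv⟩ := mem_nb.1 (show y ∈ nb N C x by rw [hnx]; simp)
  have hvne : (N v ∩ C).Nonempty := by rw [hv]; exact ⟨x, by simp⟩
  have hab : a ≠ b := (mem_nb.1 (show a ∈ nb N C b by rw [hnb]; simp)).2.1
  have hax : a ≠ x := (mem_nb.1 (show a ∈ nb N C x by rw [hnx]; simp)).2.1
  have hby : b ≠ y := (mem_nb.1 (show b ∈ nb N C y by rw [hny]; simp)).2.1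
  have hx'y : x' ≠ y := by
    rintro rfl
    have : a ∈ nb N C x' := nb_symm ha (by rw [hna]; simp)
    rw [hny, mem_insert, mem_singleton] at this
    rcases this with h | h
    · exact hab h
    · exact hax h
  have hy'x : y' ≠ x := by
    rintro rfl
    have : b ∈ nb N C y' := nb_symm hb (by rw [hnb]; simp)
    rw [hnx, mem_insert, mem_singleton] at this
    rcases this with h | h
    · exact hab h.symm
    · exact hby h
  refine ⟨v, hvne, Or.inr ?_⟩
  intro u hu hg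
  obtain ⟨p, q, hpC, hpv, hqC, hqv, hpq, hs, huniq⟩ := tight hF hu hg
  have hvm : ∀ z ∈ C, (z ∈ N v ↔ z = x ∨ z = y) := by
    intro z hz
    constructor
    · intro h
      have : z ∈ N v ∩ C := mem_inter.2 ⟨h, hz⟩
      rw [hv, mem_insert, mem_singleton] at this
      exact this
    · intro h
      have : z ∈ N v ∩ C := by rw [hv, mem_insert, mem_singleton]; exact h
      exact (mem_inter.1 this).1
  have hpm : p ≠ x ∧ p ≠ y := by
    rw [hvm p hpC, not_or] at hpv; exact hpv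
  have hpq' : p ∈ nb N C q := mem_nb.2 ⟨hpC, hpq, u, by rw [hs, pair_comm]⟩
  rcases (hvm q hqC).1 hqv with rfl | rfl
  · -- answer at a
    have hpa : p = a := by
      rw [hnx, mem_insert, mem_singleton] at hpq'
      exact hpq'.resolve_right hpm.2
    subst hpa
    obtain ⟨-, hy'b, w, hw⟩ := mem_nb.1 (show y' ∈ nb N C b by rw [hnb]; simp)
    obtain ⟨-, -, w1, hw1⟩ := mem_nb.1 (show p ∈ nb N C b by rw [hnb]; simp)
    obtain ⟨-, -, w2, hw2⟩ := mem_nb.1 (show y ∈ nb N C b by rw [hnb]; simp)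
    exact ⟨w, gain5 (s := b) (t := y') (s2 := b) (r1 := p) (r2 := y) hv hs (Or.inl rfl)
      ⟨hbx, hby, hab.symm⟩ ⟨hy'x, hy'y, hy'a⟩ hy'b.symm hw (Or.inl rfl) hw1
      (Or.inr (Or.inr rfl)) hw2 (Or.inr (Or.inl rfl)) (fun _ => hay)⟩
  · have hpb : p = b := by
      rw [hny, mem_insert, mem_singleton] at hpq'
      exact hpq'.resolve_right hpm.1
    subst hpb
    obtain ⟨-, hx'a, w, hw⟩ := mem_nb.1 (show x' ∈ nb N C a by rw [hna]; simp)
    obtain ⟨-, -, w1, hw1⟩ := mem_nb.1 (show p ∈ nb N C a by rw [hna]; simp)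
    obtain ⟨-, -, w2, hw2⟩ := mem_nb.1 (show x ∈ nb N C a by rw [hna]; simp)
    exact ⟨w, gain5 (s := a) (t := x') (s2 := a) (r1 := p) (r2 := x) hv hs (Or.inr rfl)
      ⟨hax, hay, hab⟩ ⟨hx'x, hx'y, hx'b⟩ hx'a.symm hw (Or.inl rfl) hw1
      (Or.inr (Or.inr rfl)) hw2 (Or.inl rfl) (fun _ => hbx)⟩

end Helper77.TDG
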