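import Mathlib
import Pool.Agent.Helper77_TDG2.Small

/-!
# Critical components with 8 targets and 9 players
-/

set_option linter.unusedSectionVars false

namespace Helper77.TDG

open Finset Classical

variable {V X : Type*} [Fintype V] [DecidableEq V] [DecidableEq X]
variable {N : V → Finset X} {C : Finset X}

lemma nb2 {x h : X} (hc : (nb N C x).card = 2) (hh : h ∈ nb N C x) :
    ∃ x', x' ≠ h ∧ nb N C x = {h, x'} := by
  have h1 : ((nb N C x).erase h).card = 1 := by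
    rw [card_erase_of_mem hh, hc]
  obtain ⟨x', hx'⟩ := card_eq_one.1 h1
  have h2 : x' ∈ (nb N C x).erase h := by rw [hx']; exact mem_singleton_self _
  refine ⟨x', (mem_erase.1 h2).1, ?_⟩
  rw [← insert_erase hh, hx']

lemma nb3 {x h : X} (hc : (nb N C x).card = 3) (hh : h ∈ nb N C x) :
    ∃ u w, u ≠ w ∧ u ≠ h ∧ w ≠ h ∧ nb N C x = {h, u, w} := by
  have h1 : ((nb N C x).erase h).card = 2 := by
    rw [card_erase_of_mem hh, hc]
  obtain ⟨u, w, huw, he⟩ := card_eq_two.1 h1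
  have h2 : u ∈ (nb N C x).erase h := by rw [he]; simp
  have h3 : w ∈ (nb N C x).erase h := by rw [he]; simp
  refine ⟨u, w, huw, (mem_erase.1 h2).1, (mem_erase.1 h3).1, ?_⟩
  rw [← insert_erase hh, he]

lemma nb3' {x h m : X} (hc : (nb N C x).card = 3) (hh : h ∈ nb N C x) (hm : m ∈ nb N C x)
    (hhm : h ≠ m) : ∃ u, u ≠ h ∧ u ≠ m ∧ nb N C x = {h, m, u} := by
  obtain ⟨u, w, huw, huh, hwh, he⟩ := nb3 hc hh
  have : m = u ∨ m = w := by
    rw [he] at hm
    simp only [mem_insert, mem_singleton] at hm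
    rcases hm with h | h | h
    · exact absurd h.symm hhm
    · exact Or.inl h
    · exact Or.inr h
  rcases this with rfl | rfl
  · exact ⟨w, hwh, huw.symm, he⟩
  · refine ⟨u, huh, huw, ?_⟩
    rw [he, pair_comm]

/-- Adjacent hubs with a common neighbour. -/
lemma hubs_common (hF : Fresh N C) (hW : ¬ WG N C) (hcard : 5 ≤ C.card) {a b m : X}
    (ha : a ∈ C) (hb : b ∈ C) (hab : a ≠ b)
    (h3a : (nb N C a).card = 3) (h3b : (nb N C b).card = 3)
    (h2 : ∀ x ∈ C, x ≠ a → x ≠ b → (nb N C x).card = 2)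
    (hadj : b ∈ nb N C a) (hma : m ∈ nb N C a) (hmb : m ∈ nb N C b) : False := by
  have hadj' := nb_symm ha hadj
  have hm := (mem_nb.1 hma).1
  have ham := (mem_nb.1 hma).2.1
  have hbm := (mem_nb.1 hmb).2.1
  obtain ⟨x, hxb, hxm, hna⟩ := nb3' h3a hadj hma hbm.symm
  obtain ⟨y, hya, hym, hnb⟩ := nb3' h3b hadj' hmb ham.symm
  have hxC := (mem_nb.1 (show x ∈ nb N C a by rw [hna]; simp))
  have hyC := (mem_nb.1 (show y ∈ nb N C b by rw [hnb]; simp))
  have hnm : nb N C m = {a, b} := by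
    obtain ⟨x', hx'a, he⟩ := nb2 (h2 m hm ham hbm) (nb_symm ha hma)
    have : b ∈ nb N C m := nb_symm hb hmb
    rw [he, mem_insert, mem_singleton] at this
    rcases this with h | h
    · exact absurd h.symm hab
    · rw [he, h]
  by_cases hxy : x = y
  · subst hxy
    have hnx : nb N C x = {a, b} := by
      obtain ⟨x', hx'a, he⟩ := nb2 (h2 x hxC.1 hxC.2.1 hyC.2.1)
        (nb_symm ha (show x ∈ nb N C a by rw [hna]; simp))
      have : b ∈ nb N C x := nb_symm hb (show x ∈ nb N C b by rw [hnb]; simp)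
      rw [he, mem_insert, mem_singleton] at this
      rcases this with h | h
      · exact absurd h.symm hab
      · rw [he, h]
    have hD : ({a, b, m, x} : Finset X) = C := by
      refine hF.2.2 _ ?_ ⟨a, by simp⟩ ?_
      · intro z hz
        simp only [mem_insert, mem_singleton] at hz
        rcases hz with rfl | rfl | rfl | rfl
        · exact ha
        · exact hb
        · exact hm
        · exact hxC.1
      · rintro v ⟨z, hz⟩ t ht
        rw [mem_inter] at hz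
        have hzC : z ∈ C := by
          have := hz.2
          simp only [mem_insert, mem_singleton] at this
          rcases this with rfl | rfl | rfl | rfl
          · exact ha
          · exact hb
          · exact hm
          · exact hxC.1
        obtain ⟨t', ht'C, ht'z, hs⟩ := edge_of hF hzC hz.1
        have ht2 : t ∈ ({z, t'} : Finset X) := by rw [← hs]; exact ht
        rw [mem_insert, mem_singleton] at ht2
        rcases ht2 with rfl | rfl
        · exact hz.2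
        · have htn : t ∈ nb N C z := mem_nb.2 ⟨ht'C, ht'z, v, hs⟩
          have := hz.2
          simp only [mem_insert, mem_singleton] at this ⊢
          rcases this with rfl | rfl | rfl | rfl
          · rw [hna] at htn
            simp only [mem_insert, mem_singleton] at htn
            tauto
          · rw [hnb] at htn
            simp only [mem_insert, mem_singleton] at htn
            tauto
          · rw [hnm] at htn
            simp only [mem_insert, mem_singleton] at htn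
            tauto
          · rw [hnx] at htn
            simp only [mem_insert, mem_singleton] at htn
            tauto
    have h4 : ({a, b, m, x} : Finset X).card ≤ 4 := card_le_four
    rw [hD] at h4
    omega
  · exact hW (rule_c hF ha hb hm hna hnb hnm hxy hxb hxm hya hym)

/-- Two hubs of degree three in a graph with 8 vertices are not adjacent. -/
lemma hubs_not_adj (hF : Fresh N C) (hW : ¬ WG N C) (hcard : C.card = 8) {a b : X}
    (ha : a ∈ C) (hb : b ∈ C) (hab : a ≠ b)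
    (h3a : (nb N C a).card = 3) (h3b : (nb N C b).card = 3)
    (h2 : ∀ x ∈ C, x ≠ a → x ≠ b → (nb N C x).card = 2)
    (hadj : b ∈ nb N C a) : False := by
  have hadj' := nb_symm ha hadj
  have hcom : ∀ m, m ∈ nb N C a → m ∉ nb N C b := fun m h1 h3 =>
    hubs_common hF hW (by omega) ha hb hab h3a h3b h2 hadj h1 h3
  obtain ⟨x1, x2, hx12, hx1b, hx2b, hna⟩ := nb3 h3a hadj
  obtain ⟨y1, y2, hy12, hy1a, hy2a, hnb⟩ := nb3 h3b hadj'
  have hX : ∀ x, x ∈ nb N C a ↔ x = b ∨ x = x1 ∨ x = x2 := by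
    intro x; rw [hna]; simp
  have hY : ∀ x, x ∈ nb N C b ↔ x = a ∨ x = y1 ∨ x = y2 := by
    intro x; rw [hnb]; simp
  -- general facts about neighbours of the hubs
  have factA : ∀ x, x ∈ nb N C a → x ≠ b → x ∈ C ∧ x ≠ a ∧ ∃ z, z ≠ a ∧ z ≠ b ∧ z ∈ C ∧ z ≠ x ∧
      nb N C x = {a, z} := by
    intro x hx hxb
    obtain ⟨hxC, hxa, -⟩ := mem_nb.1 hx
    obtain ⟨z, hza, he⟩ := nb2 (h2 x hxC hxa hxb) (nb_symm ha hx)
    have hz := mem_nb.1 (show z ∈ nb N C x by rw [he]; simp)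
    refine ⟨hxC, hxa, z, hza, ?_, hz.1, hz.2.1, he⟩
    rintro rfl
    exact hcom x hx (nb_symm hxC (by rw [he]; simp))
  have factB : ∀ x, x ∈ nb N C b → x ≠ a → x ∈ C ∧ x ≠ b ∧ ∃ z, z ≠ a ∧ z ≠ b ∧ z ∈ C ∧ z ≠ x ∧
      nb N C x = {b, z} := by
    intro x hx hxa
    obtain ⟨hxC, hxb, -⟩ := mem_nb.1 hx
    obtain ⟨z, hzb, he⟩ := nb2 (h2 x hxC hxa hxb) (nb_symm hb hx)
    have hz := mem_nb.1 (show z ∈ nb N C x by rw [he]; simp)
    refine ⟨hxC, hxb, z, ?_, hzb, hz.1, hz.2.1, he⟩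
    rintro rfl
    exact hcom x (nb_symm hxC (by rw [he]; simp)) hx
  obtain ⟨hx1C, hx1a, z1, hz1a, hz1b, hz1C, hz1x, hn1⟩ := factA x1 ((hX _).2 (by simp)) hx1b
  obtain ⟨hx2C, hx2a, z2, hz2a, hz2b, hz2C, hz2x, hn2⟩ := factA x2 ((hX _).2 (by simp)) hx2b
  obtain ⟨hy1C, hy1b, t1, ht1a, ht1b, ht1C, ht1y, hm1⟩ := factB y1 ((hY _).2 (by simp)) hy1a
  obtain ⟨hy2C, hy2b, t2, ht2a, ht2b, ht2C, ht2y, hm2⟩ := factB y2 ((hY _).2 (by simp)) hy2a
  have hxy : ∀ x, (x = x1 ∨ x = x2) → ¬ (x = y1 ∨ x = y2) := by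
    intro x h1 h3
    exact hcom x ((hX x).2 (Or.inr h1)) ((hY x).2 (Or.inr h3))
  -- x1, x2 are not adjacent
  have n1 : z1 ≠ x2 := by
    rintro rfl
    have : x1 ∈ nb N C z1 := nb_symm hx1C (by rw [hn1]; simp)
    rw [hn2, mem_insert, mem_singleton] at this
    have hz2 : z2 = x1 := (this.resolve_left hx1a).symm
    refine hW (rule_b hF (z := a) hx1C hx2C ?_ ?_ hx1a.symm hx2a.symm)
    · rw [hn1, pair_comm]
    · rw [hn2, hz2, pair_comm]
  have n2 : z2 ≠ x1 := by
    rintro rfl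
    have : x2 ∈ nb N C z2 := nb_symm hx2C (by rw [hn2]; simp)
    rw [hn1, mem_insert, mem_singleton] at this
    exact n1 (this.resolve_left hx2a).symm
  have n3 : t1 ≠ y2 := by
    rintro rfl
    have : y1 ∈ nb N C t1 := nb_symm hy1C (by rw [hm1]; simp)
    rw [hm2, mem_insert, mem_singleton] at this
    have ht2 : t2 = y1 := (this.resolve_left hy1b).symm
    refine hW (rule_b hF (z := b) hy1C hy2C ?_ ?_ hy1b.symm hy2b.symm)
    · rw [hm1, pair_comm]
    · rw [hm2, ht2, pair_comm]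
  have n4 : t2 ≠ y1 := by
    rintro rfl
    have : y2 ∈ nb N C t2 := nb_symm hy2C (by rw [hm2]; simp)
    rw [hm1, mem_insert, mem_singleton] at this
    exact n3 (this.resolve_left hy2b).symm
  -- x_i and y_j are not adjacent
  have rd : ∀ x x' y y' z t, x ∈ C → y ∈ C → nb N C a = {b, x, x'} → nb N C b = {a, y, y'} →
      nb N C x = {a, z} → nb N C y = {b, t} → x' ≠ b → x' ≠ x → y' ≠ a → y' ≠ y → a ≠ y →
      b ≠ x → z ≠ y := by
    intro x x' y y' z t hx hy e1 e2 e3 e4 c1 c2 c3 c4 c5 c6 hzy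
    subst hzy
    have : x ∈ nb N C z := nb_symm hx (by rw [e3]; simp)
    rw [e4, mem_insert, mem_singleton] at this
    have ht : t = x := (this.resolve_left c6.symm).symm
    subst ht
    exact hW (rule_d hF ha hb hx hy e1 e2 e3 e4 c1 c2 c3 c4 c5 c6)
  have hna' : nb N C a = {b, x2, x1} := by rw [hna, pair_comm]
  have hnb' : nb N C b = {a, y2, y1} := by rw [hnb, pair_comm]
  have p11 : z1 ≠ y1 := rd x1 x2 y1 y2 z1 t1 hx1C hy1C hna hnb hn1 hm1 hx2b hx12.symm hy2a
    hy12.symm hy1a.symm hx1b.symm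
  have p12 : z1 ≠ y2 := rd x1 x2 y2 y1 z1 t2 hx1C hy2C hna hnb' hn1 hm2 hx2b hx12.symm hy1a
    hy12 hy2a.symm hx1b.symm
  have p21 : z2 ≠ y1 := rd x2 x1 y1 y2 z2 t1 hx2C hy1C hna' hnb hn2 hm1 hx1b hx12 hy2a
    hy12.symm hy1a.symm hx2b.symm
  have p22 : z2 ≠ y2 := rd x2 x1 y2 y1 z2 t2 hx2C hy2C hna' hnb' hn2 hm2 hx1b hx12 hy1a
    hy12 hy2a.symm hx2b.symm
  have q11 : t1 ≠ x1 := by
    rintro rfl
    have : y1 ∈ nb N C t1 := nb_symm hy1C (by rw [hm1]; simp)
    rw [hn1, mem_insert, mem_singleton] at this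
    exact p11 (this.resolve_left hy1a).symm
  have q12 : t1 ≠ x2 := by
    rintro rfl
    have : y1 ∈ nb N C t1 := nb_symm hy1C (by rw [hm1]; simp)
    rw [hn2, mem_insert, mem_singleton] at this
    exact p21 (this.resolve_left hy1a).symm
  have q21 : t2 ≠ x1 := by
    rintro rfl
    have : y2 ∈ nb N C t2 := nb_symm hy2C (by rw [hm2]; simp)
    rw [hn1, mem_insert, mem_singleton] at this
    exact p12 (this.resolve_left hy2a).symm
  have q22 : t2 ≠ x2 := by
    rintro rfl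
    have : y2 ∈ nb N C t2 := nb_symm hy2C (by rw [hm2]; simp)
    rw [hn2, mem_insert, mem_singleton] at this
    exact p22 (this.resolve_left hy2a).symm
  -- the four outer neighbours lie in a set with two elements
  have x1y1 : x1 ≠ y1 := fun h => hxy x1 (Or.inl rfl) (Or.inl h)
  have x1y2 : x1 ≠ y2 := fun h => hxy x1 (Or.inl rfl) (Or.inr h)
  have x2y1 : x2 ≠ y1 := fun h => hxy x2 (Or.inr rfl) (Or.inl h)
  have x2y2 : x2 ≠ y2 := fun h => hxy x2 (Or.inr rfl) (Or.inr h)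
  set S : Finset X := {a, b, x1, x2, y1, y2} with hS
  have hScard : S.card = 6 := by
    rw [hS, card_insert_of_notMem, card_insert_of_notMem, card_insert_of_notMem,
      card_insert_of_notMem, card_pair hy12]
    · simp [x2y1, x2y2]
    · simp [hx12, x1y1, x1y2]
    · simp [hx1b.symm, hx2b.symm, hy1b.symm, hy2b.symm]
    · simp [hab, hx1a.symm, hx2a.symm, hy1a.symm, hy2a.symm]
  have hSC : S ⊆ C := by
    intro z hz
    simp only [hS, mem_insert, mem_singleton] at hz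
    rcases hz with rfl | rfl | rfl | rfl | rfl | rfl <;> assumption
  have hZcard : (C \ S).card = 2 := by
    rw [card_sdiff_of_subset hSC, hScard, hcard]
  have memS : ∀ z, z ∈ S ↔ z = a ∨ z = b ∨ z = x1 ∨ z = x2 ∨ z = y1 ∨ z = y2 := by
    intro z; simp [hS]
  have hz1 : z1 ∈ C \ S := by
    rw [mem_sdiff, memS]
    exact ⟨hz1C, not_or.2 ⟨hz1a, not_or.2 ⟨hz1b, not_or.2 ⟨hz1x, not_or.2 ⟨n1,
      not_or.2 ⟨p11, p12⟩⟩⟩⟩⟩⟩
  have hz2 : z2 ∈ C \ S := by
    rw [mem_sdiff, memS]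
    exact ⟨hz2C, not_or.2 ⟨hz2a, not_or.2 ⟨hz2b, not_or.2 ⟨n2, not_or.2 ⟨hz2x,
      not_or.2 ⟨p21, p22⟩⟩⟩⟩⟩⟩
  have ht1 : t1 ∈ C \ S := by
    rw [mem_sdiff, memS]
    exact ⟨ht1C, not_or.2 ⟨ht1a, not_or.2 ⟨ht1b, not_or.2 ⟨q11, not_or.2 ⟨q12,
      not_or.2 ⟨ht1y, n3⟩⟩⟩⟩⟩⟩
  have ht2 : t2 ∈ C \ S := by
    rw [mem_sdiff, memS]
    exact ⟨ht2C, not_or.2 ⟨ht2a, not_or.2 ⟨ht2b, not_or.2 ⟨q21, not_or.2 ⟨q22,
      not_or.2 ⟨n4, ht2y⟩⟩⟩⟩⟩⟩
  -- every vertex of the pair outside `S` has its two neighbours among x1, x2, y1, y2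
  have hin : ∀ z ∈ C \ S, ∀ p ∈ nb N C z, p = x1 ∨ p = x2 ∨ p = y1 ∨ p = y2 := by
    intro z hz p hp
    have hzS := (mem_sdiff.1 hz)
    have hza : z ≠ a := fun h => hzS.2 ((memS z).2 (Or.inl h))
    have hzb : z ≠ b := fun h => hzS.2 ((memS z).2 (Or.inr (Or.inl h)))
    have hpC := (mem_nb.1 hp).1
    by_contra hno
    have hpa : p ≠ a := by
      rintro rfl
      have : z ∈ nb N C p := nb_symm hzS.1 hp
      rw [hX] at this
      apply hzS.2
      rw [memS]
      rcases this with h | h | h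
      · exact Or.inr (Or.inl h)
      · exact Or.inr (Or.inr (Or.inl h))
      · exact Or.inr (Or.inr (Or.inr (Or.inl h)))
    have hpb : p ≠ b := by
      rintro rfl
      have : z ∈ nb N C p := nb_symm hzS.1 hp
      rw [hY] at this
      apply hzS.2
      rw [memS]
      rcases this with h | h | h
      · exact Or.inl h
      · exact Or.inr (Or.inr (Or.inr (Or.inr (Or.inl h))))
      · exact Or.inr (Or.inr (Or.inr (Or.inr (Or.inr h))))
    have hpZ : p ∈ C \ S := by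
      rw [mem_sdiff, memS]
      exact ⟨hpC, not_or.2 ⟨hpa, not_or.2 ⟨hpb, hno⟩⟩⟩
    have hpz : p ≠ z := (mem_nb.1 hp).2.1
    have hZ : C \ S = {z, p} := by
      symm
      apply eq_of_subset_of_card_le
      · intro w hw
        rw [mem_insert, mem_singleton] at hw
        rcases hw with rfl | rfl
        · exact hz
        · exact hpZ
      · rw [card_pair hpz.symm, hZcard]
    have hnz := h2 z hzS.1 hza hzb
    have hnp := h2 p hpC hpa hpb
    obtain ⟨z', hz'p, hez⟩ := nb2 hnz hp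
    obtain ⟨p', hp'z, hep⟩ := nb2 hnp (nb_symm hzS.1 hp)
    rw [hZ, mem_insert, mem_singleton] at hz1 hz2 ht1 ht2
    -- each of x1, x2, y1, y2 is z' or p'
    have key : ∀ q r, q ∈ C → r ∈ nb N C q → (r = z ∨ r = p) → q ≠ z → q ≠ p →
        q = z' ∨ q = p' := by
      intro q r hqC hr hrz hqz hqp
      have h1 := nb_symm hqC hr
      rcases hrz with rfl | rfl
      · rw [hez, mem_insert, mem_singleton] at h1
        exact Or.inl (h1.resolve_left hqp)
      · rw [hep, mem_insert, mem_singleton] at h1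
        exact Or.inr (h1.resolve_left hqz)
    have notS : ∀ q, q ∈ S → q ≠ z ∧ q ≠ p := by
      intro q hq
      constructor
      · rintro rfl; exact hzS.2 hq
      · rintro rfl; exact (mem_sdiff.1 hpZ).2 hq
    have sx1 := notS x1 ((memS _).2 (Or.inr (Or.inr (Or.inl rfl))))
    have sx2 := notS x2 ((memS _).2 (Or.inr (Or.inr (Or.inr (Or.inl rfl)))))
    have sy1 := notS y1 ((memS _).2 (Or.inr (Or.inr (Or.inr (Or.inr (Or.inl rfl))))))
    have k1 := key x1 z1 hx1C (by rw [hn1]; simp) hz1 sx1.1 sx1.2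
    have k2 := key x2 z2 hx2C (by rw [hn2]; simp) hz2 sx2.1 sx2.2
    have k3 := key y1 t1 hy1C (by rw [hm1]; simp) ht1 sy1.1 sy1.2
    rcases k1 with k1 | k1 <;> rcases k2 with k2 | k2 <;> rcases k3 with k3 | k3
    · exact hx12 (k1.trans k2.symm)
    · exact hx12 (k1.trans k2.symm)
    · exact x1y1 (k1.trans k3.symm)
    · exact x2y1 (k2.trans k3.symm)
    · exact x2y1 (k2.trans k3.symm)
    · exact x1y1 (k1.trans k3.symm)
    · exact hx12 (k1.trans k2.symm)
    · exact hx12 (k1.trans k2.symm)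
  -- open ab
  apply hW
  obtain ⟨-, -, v, hv⟩ := mem_nb.1 hadj
  refine ⟨v, ⟨a, by rw [hv]; simp⟩, Or.inr ?_⟩
  intro u hu hg
  obtain ⟨p, q, hpC, hpv, hqC, hqv, hpq, hs, huniq⟩ := tight hF hu hg
  have hvm : ∀ x ∈ C, (x ∈ N v ↔ x = a ∨ x = b) := by
    intro x hx
    constructor
    · intro h
      have : x ∈ N v ∩ C := mem_inter.2 ⟨h, hx⟩
      rw [hv, mem_insert, mem_singleton] at this
      exact this
    · intro h
      have : x ∈ N v ∩ C := by rw [hv, mem_insert, mem_singleton]; exact h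
      exact (mem_inter.1 this).1
  have hpm : p ≠ a ∧ p ≠ b := by
    rw [hvm p hpC, not_or] at hpv; exact hpv
  have hpq' : p ∈ nb N C q := mem_nb.2 ⟨hpC, hpq, u, by rw [hs, pair_comm]⟩
  have hqab := (hvm q hqC).1 hqv
  have hp4 : p = x1 ∨ p = x2 ∨ p = y1 ∨ p = y2 := by
    rcases hqab with rfl | rfl
    · rw [hX] at hpq'
      rcases hpq' with h | h | h
      · exact absurd h hpm.2
      · exact Or.inl h
      · exact Or.inr (Or.inl h)
    · rw [hY] at hpq'
      rcases hpq' with h | h | h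
      · exact absurd h hpm.1
      · exact Or.inr (Or.inr (Or.inl h))
      · exact Or.inr (Or.inr (Or.inr h))
  -- the outer neighbour of p
  have outer : ∀ p, (p = x1 ∨ p = x2 ∨ p = y1 ∨ p = y2) → ∃ z ∈ C \ S, ∃ h, (h = a ∨ h = b) ∧
      z ∈ nb N C p ∧ h ∈ nb N C p := by
    rintro p (rfl | rfl | rfl | rfl)
    · exact ⟨z1, hz1, a, Or.inl rfl, by rw [hn1]; simp, by rw [hn1]; simp⟩
    · exact ⟨z2, hz2, a, Or.inl rfl, by rw [hn2]; simp, by rw [hn2]; simp⟩
    · exact ⟨t1, ht1, b, Or.inr rfl, by rw [hm1]; simp, by rw [hm1]; simp⟩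
    · exact ⟨t2, ht2, b, Or.inr rfl, by rw [hm2]; simp, by rw [hm2]; simp⟩
  obtain ⟨z, hz, -, -, hzp, -⟩ := outer p hp4
  have hzS := mem_sdiff.1 hz
  have hza : z ≠ a := fun h => hzS.2 ((memS z).2 (Or.inl h))
  have hzb : z ≠ b := fun h => hzS.2 ((memS z).2 (Or.inr (Or.inl h)))
  have hzp' : z ≠ p := (mem_nb.1 hzp).2.1
  obtain ⟨p', hp'p, hez⟩ := nb2 (h2 z hzS.1 hza hzb) (nb_symm hpC hzp)
  have hp'z : p' ∈ nb N C z := by rw [hez]; simp
  have hp'4 := hin z hz p' hp'z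
  obtain ⟨-, -, h, hh, -, hhp⟩ := outer p' hp'4
  have hp'C := (mem_nb.1 hp'z).1
  have hp'ne : p' ≠ a ∧ p' ≠ b := by
    rcases hp'4 with rfl | rfl | rfl | rfl
    · exact ⟨hx1a, hx1b⟩
    · exact ⟨hx2a, hx2b⟩
    · exact ⟨hy1a, hy1b⟩
    · exact ⟨hy2a, hy2b⟩
  obtain ⟨-, hp'z', w, hw⟩ := mem_nb.1 hp'z
  obtain ⟨-, -, w1, hw1⟩ := mem_nb.1 (show p ∈ nb N C z by rw [hez]; simp)
  obtain ⟨-, -, w2, hw2⟩ := mem_nb.1 hhp
  exact ⟨w, gain5 (s := z) (t := p') (s2 := p') (r1 := p) (r2 := h) hv hs hqab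
    ⟨hza, hzb, hzp'⟩ ⟨hp'ne.1, hp'ne.2, hp'p⟩ hp'z'.symm hw (Or.inr rfl) hw1
    (Or.inr (Or.inr rfl)) hw2 (hh.elim Or.inl fun h => Or.inr (Or.inl h))
    (fun h => absurd h hp'z')⟩

end Helper77.TDG
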