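import Mathlib
import Pool.Agent.Helper77_TDG2.Class89

/-!
# Critical components with 8 targets and 9 players: the dual strategy
-/

set_option linter.unusedSectionVars false

namespace Helper77.TDG

open Finset Classical

variable {V X : Type*} [Fintype V] [DecidableEq V] [DecidableEq X]
variable {N : V → Finset X} {C : Finset X}

lemma mem_cv {x : X} {v : V} : v ∈ cov N x ↔ x ∈ N v := by simp [cov]

lemma cov_sub_alive {x : X} (hx : x ∈ C) : cov N x ⊆ alive N C := by
  intro v hv
  exact mem_alive.2 ⟨x, mem_inter.2 ⟨mem_cv.1 hv, hx⟩⟩

/-- A pendant player `u` whose last target is also a target of `w`. -/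
lemma threat3 {u w : X} {f : V} {F : Finset V} (hu : u ∈ C) (hw : w ∈ C) (huw : u ≠ w)
    (hF1 : cov N u ∩ F = {f}) (hf : f ∈ cov N w) (hw2 : 2 ≤ (cov N w ∩ F).card) :
    Threat (cov N) C 3 F := by
  refine ⟨w, hw, ?_⟩
  unfold val
  have h1 : ({w, u} : Finset X) ⊆ C.filter fun u => (cov N u ∩ F).Nonempty ∧
      cov N u ∩ F ⊆ cov N w := by
    intro z hz
    rw [mem_insert, mem_singleton] at hz
    rw [mem_filter]
    rcases hz with rfl | rfl
    · exact ⟨hw, card_pos.1 (by omega), inter_subset_left⟩
    · rw [hF1]
      exact ⟨hu, singleton_nonempty f, singleton_subset_iff.2 hf⟩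
  have h2 := card_le_card h1
  rw [card_pair huw.symm] at h2
  omega

/-- Erasing one target when one end has degree two. -/
lemma erase_threat (hF : Fresh N C) (hD : ND N C)
    (hN : ∀ x, 2 ≤ (univ.filter fun v => x ∈ N v).card) {e : V} {u v : X} (hu : u ∈ C)
    (he : N e ∩ C = {u, v}) (h2 : (cov N u).card = 2) :
    Threat (cov N) C 3 ((alive N C).erase e) := by
  have heu : e ∈ cov N u := by
    have : u ∈ N e ∩ C := by rw [he]; simp
    exact mem_cv.2 (mem_inter.1 this).1
  obtain ⟨f, hf⟩ : ∃ f, (cov N u).erase e = {f} := by
    rw [← card_eq_one, card_erase_of_mem heu, h2]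
  have hfm : f ∈ (cov N u).erase e := by rw [hf]; exact mem_singleton_self f
  rw [mem_erase] at hfm
  obtain ⟨w, hwC, hwu, hs⟩ := edge_of hF hu (mem_cv.1 hfm.2)
  have hwv : w ≠ v := by
    rintro rfl
    have : f = e := hD f e (by rw [hs]; exact ⟨u, by simp⟩) (by rw [hs, he])
    exact hfm.1 this
  have hfw : f ∈ cov N w := by
    have : w ∈ N f ∩ C := by rw [hs]; simp
    exact mem_cv.2 (mem_inter.1 this).1
  have hew : e ∉ cov N w := by
    intro h
    have : w ∈ N e ∩ C := mem_inter.2 ⟨mem_cv.1 h, hwC⟩
    rw [he, mem_insert, mem_singleton] at this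
    rcases this with h | h
    · exact hwu h
    · exact hwv h
  refine threat3 (u := u) (w := w) (f := f) hu hwC hwu.symm ?_ hfw ?_
  · ext g
    rw [mem_inter, mem_erase, mem_singleton]
    constructor
    · rintro ⟨h1, h2, -⟩
      have : g ∈ (cov N u).erase e := mem_erase.2 ⟨h2, h1⟩
      rw [hf] at this
      exact mem_singleton.1 this
    · rintro rfl
      exact ⟨hfm.2, hfm.1, cov_sub_alive hu hfm.2⟩
  · have : cov N w ∩ (alive N C).erase e = cov N w := by
      rw [inter_eq_left]
      intro g hg
      exact mem_erase.2 ⟨fun h => hew (h ▸ hg), cov_sub_alive hwC hg⟩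
    rw [this]
    exact hN w

theorem class89 (hN : ∀ x, 2 ≤ (univ.filter fun v => x ∈ N v).card) (hF : Fresh N C)
    (h8 : C.card = 8) (h9 : (alive N C).card = 9) (hW : ¬ WG N C) :
    DualGood (cov N) C (alive N C) 3 := by
  have hD := nd_of_not_WG hF hW
  have hsum := double_count hF
  rw [h9] at hsum
  have hcov : ∀ x, 2 ≤ (cov N x).card := hN
  -- sums over small subsets
  have hsub : ∀ S ⊆ C, ∑ x ∈ S, (cov N x).card + 2 * (C.card - S.card) ≤ 18 := by
    intro S hS
    have h1 := sum_sdiff (f := fun x => (cov N x).card) hS
    have h2 : ∑ x ∈ C \ S, 2 ≤ ∑ x ∈ C \ S, (cov N x).card := sum_le_sum fun x _ => hcov x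
    rw [sum_const, smul_eq_mul, card_sdiff_of_subset hS] at h2
    omega
  have hpair : ∀ x y, x ∈ C → y ∈ C → x ≠ y → (cov N x).card + (cov N y).card ≤ 6 := by
    intro x y hx hy hxy
    have h1 := hsub {x, y} (by
      intro z hz
      rw [mem_insert, mem_singleton] at hz
      rcases hz with rfl | rfl <;> assumption)
    rw [sum_pair hxy, card_pair hxy, h8] at h1
    omega
  have htri : ∀ x y z, x ∈ C → y ∈ C → z ∈ C → x ≠ y → x ≠ z → y ≠ z →
      (cov N x).card + (cov N y).card + (cov N z).card ≤ 8 := by
    intro x y z hx hy hz hxy hxz hyz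
    have h1 := hsub {x, y, z} (by
      intro w hw
      simp only [mem_insert, mem_singleton] at hw
      rcases hw with rfl | rfl | rfl <;> assumption)
    have h3 : x ∉ ({y, z} : Finset X) := by simp [hxy, hxz]
    rw [sum_insert h3, sum_pair hyz, card_insert_of_notMem h3, card_pair hyz, h8] at h1
    omega
  -- a vertex of degree at least three
  obtain ⟨a, ha, ha3⟩ : ∃ a ∈ C, 3 ≤ (cov N a).card := by
    by_contra hno
    push Not at hno
    have h1 : ∑ x ∈ C, (cov N x).card ≤ ∑ x ∈ C, 2 :=
      sum_le_sum fun x hx => by have := hno x hx; omega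
    rw [sum_const, smul_eq_mul, h8] at h1
    omega
  -- edges
  have hedge : ∀ e ∈ alive N C, ∃ u v, u ∈ C ∧ v ∈ C ∧ u ≠ v ∧ N e ∩ C = {u, v} := by
    intro e he
    obtain ⟨u, hu⟩ := mem_alive.1 he
    rw [mem_inter] at hu
    obtain ⟨v, hv, hvu, hs⟩ := edge_of hF hu.2 hu.1
    exact ⟨u, v, hu.2, hv, hvu.symm, hs⟩
  by_cases ha4 : 4 ≤ (cov N a).card
  · -- one vertex of degree four
    have hother : ∀ x ∈ C, x ≠ a → (cov N x).card = 2 := by
      intro x hx hxa
      have := hpair x a hx ha hxa
      have := hcov x
      omega
    refine ⟨fun e he => ?_, Or.inl ⟨a, ha, ?_⟩⟩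
    · obtain ⟨u, v, hu, hv, huv, hs⟩ := hedge e he
      by_cases hua : u = a
      · have hva : v ≠ a := fun h => huv (hua.trans h.symm)
        exact erase_threat hF hD hN hv (by rw [hs, pair_comm]) (hother v hv hva)
      · exact erase_threat hF hD hN hu hs (hother u hu hua)
    · unfold val
      have h1 : cov N a ∩ alive N C = cov N a := inter_eq_left.2 (cov_sub_alive ha)
      have h2 : ({a} : Finset X) ⊆ C.filter fun u => (cov N u ∩ alive N C).Nonempty ∧
          cov N u ∩ alive N C ⊆ cov N a := by
        intro z hz
        rw [mem_singleton] at hz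
        subst hz
        rw [mem_filter, h1]
        exact ⟨ha, card_pos.1 (by omega), Subset.refl _⟩
      have h3 := card_le_card h2
      rw [card_singleton] at h3
      rw [h1]
      omega
  · have ha3' : (cov N a).card = 3 := by omega
    obtain ⟨b, hb, hba, hb3⟩ : ∃ b ∈ C, b ≠ a ∧ 3 ≤ (cov N b).card := by
      by_contra hno
      push Not at hno
      have h1 := sum_erase_add C (fun x => (cov N x).card) ha
      have h2 : ∑ x ∈ C.erase a, (cov N x).card ≤ ∑ x ∈ C.erase a, 2 :=
        sum_le_sum fun x hx => by
          have := hno x (mem_of_mem_erase hx) (ne_of_mem_erase hx)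
          omega
      rw [sum_const, smul_eq_mul, card_erase_of_mem ha, h8] at h2
      omega
    have hb3' : (cov N b).card = 3 := by
      have := hpair a b ha hb hba.symm
      omega
    have hother : ∀ x ∈ C, x ≠ a → x ≠ b → (cov N x).card = 2 := by
      intro x hx hxa hxb
      have := htri a b x ha hb hx hba.symm hxa.symm hxb.symm
      have := hcov x
      omega
    have hna := nb_card hF hD ha
    have hnb := nb_card hF hD hb
    have hnadj : b ∉ nb N C a := fun h =>
      hubs_not_adj hF hW h8 ha hb hba.symm (by omega) (by omega)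
        (fun x hx h1 h3 => by rw [nb_card hF hD hx]; exact hother x hx h1 h3) h
    refine ⟨fun e he => ?_, ?_⟩
    · obtain ⟨u, v, hu, hv, huv, hs⟩ := hedge e he
      by_cases h2u : (cov N u).card = 2
      · exact erase_threat hF hD hN hu hs h2u
      by_cases h2v : (cov N v).card = 2
      · exact erase_threat hF hD hN hv (by rw [hs, pair_comm]) h2v
      exfalso
      have hu' : u = a ∨ u = b := by
        by_contra h
        rw [not_or] at h
        exact h2u (hother u hu h.1 h.2)
      have hv' : v = a ∨ v = b := by
        by_contra h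
        rw [not_or] at h
        exact h2v (hother v hv h.1 h.2)
      rcases hu' with rfl | rfl <;> rcases hv' with rfl | rfl
      · exact huv rfl
      · exact hnadj (mem_nb.2 ⟨hv, huv.symm, e, hs⟩)
      · exact hnadj (mem_nb.2 ⟨hu, huv, e, by rw [hs, pair_comm]⟩)
      · exact huv rfl
    · right
      set F := alive N C \ cov N a with hFdef
      -- data of the neighbours of a
      have data : ∀ m ∈ nb N C a, ∃ w f, w ∈ C ∧ w ≠ a ∧ w ≠ m ∧ w ∉ nb N C a ∧
          N f ∩ C = {m, w} ∧ cov N m ∩ F = {f} ∧ cov N w ⊆ F := by
        intro m hm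
        obtain ⟨hmC, hma, g, hg⟩ := mem_nb.1 hm
        have hmb : m ≠ b := fun h => hnadj (h ▸ hm)
        have hm2 := hother m hmC hma hmb
        have hgm : g ∈ cov N m := by
          have : m ∈ N g ∩ C := by rw [hg]; simp
          exact mem_cv.2 (mem_inter.1 this).1
        have hga : g ∈ cov N a := by
          have : a ∈ N g ∩ C := by rw [hg]; simp
          exact mem_cv.2 (mem_inter.1 this).1
        obtain ⟨f, hf⟩ : ∃ f, (cov N m).erase g = {f} := by
          rw [← card_eq_one, card_erase_of_mem hgm, hm2]
        have hfm : f ∈ (cov N m).erase g := by rw [hf]; exact mem_singleton_self f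
        rw [mem_erase] at hfm
        obtain ⟨w, hwC, hwm, hs⟩ := edge_of hF hmC (mem_cv.1 hfm.2)
        have hwa : w ≠ a := by
          rintro rfl
          have : f = g := hD f g (by rw [hs]; exact ⟨m, by simp⟩) (by rw [hs, hg, pair_comm])
          exact hfm.1 this
        have hfa : f ∉ cov N a := by
          intro h
          have : a ∈ N f ∩ C := mem_inter.2 ⟨mem_cv.1 h, ha⟩
          rw [hs, mem_insert, mem_singleton] at this
          rcases this with h | h
          · exact hma h.symm
          · exact hwa h.symm
        have hwna : w ∉ nb N C a := by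
          intro hw
          have hwb : w ≠ b := fun h => hnadj (h ▸ hw)
          have e1 : (nb N C m).card = 2 := by rw [nb_card hF hD hmC]; exact hm2
          have e2 : (nb N C w).card = 2 := by
            rw [nb_card hF hD hwC]; exact hother w hwC hwa hwb
          obtain ⟨m', hm', em⟩ := nb2 e1 (nb_symm ha hm)
          obtain ⟨w', hw', ew⟩ := nb2 e2 (nb_symm ha hw)
          have i1 : w ∈ nb N C m := mem_nb.2 ⟨hwC, hwm, f, hs⟩
          have i2 : m ∈ nb N C w := nb_symm hmC i1
          rw [em, mem_insert, mem_singleton] at i1
          rw [ew, mem_insert, mem_singleton] at i2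
          have j1 := i1.resolve_left hwa
          have j2 := i2.resolve_left hma
          refine hW (rule_b hF (z := a) hmC hwC ?_ ?_ hma.symm hwa.symm)
          · rw [em, j1, pair_comm]
          · rw [ew, j2, pair_comm]
        refine ⟨w, f, hwC, hwa, hwm, hwna, hs, ?_, ?_⟩
        · ext x
          rw [mem_inter, mem_singleton, hFdef, mem_sdiff]
          constructor
          · rintro ⟨h1, h2, h3⟩
            have hxg : x ≠ g := by
              rintro rfl
              exact h3 hga
            have : x ∈ (cov N m).erase g := mem_erase.2 ⟨hxg, h1⟩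
            rw [hf] at this
            exact mem_singleton.1 this
          · rintro rfl
            exact ⟨hfm.2, cov_sub_alive hmC hfm.2, hfa⟩
        · intro x hx
          rw [hFdef, mem_sdiff]
          refine ⟨cov_sub_alive hwC hx, fun h => hwna ?_⟩
          obtain ⟨t, ht, hta, hst⟩ := edge_of hF ha (mem_cv.1 h)
          have : w ∈ N x ∩ C := mem_inter.2 ⟨mem_cv.1 hx, hwC⟩
          rw [hst, mem_insert, mem_singleton] at this
          rcases this with h | h
          · exact absurd h hwa
          · subst h
            exact mem_nb.2 ⟨hwC, hwa, x, hst⟩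
      have hnac : (nb N C a).card = 3 := by omega
      obtain ⟨m1, m2, m3, h12, h13, h23, hnas⟩ := card_eq_three.1 hnac
      have hm1 : m1 ∈ nb N C a := by rw [hnas]; simp
      have hm2 : m2 ∈ nb N C a := by rw [hnas]; simp
      have hm3 : m3 ∈ nb N C a := by rw [hnas]; simp
      obtain ⟨w1, f1, hw1C, hw1a, hw1m, hw1n, hs1, hc1, hd1⟩ := data m1 hm1
      obtain ⟨w2, f2, hw2C, hw2a, hw2m, hw2n, hs2, hc2, hd2⟩ := data m2 hm2
      obtain ⟨w3, f3, hw3C, hw3a, hw3m, hw3n, hs3, hc3, hd3⟩ := data m3 hm3
      have hfw : ∀ {m w : X} {f : V}, N f ∩ C = {m, w} → f ∈ cov N w := by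
        intro m w f h
        have : w ∈ N f ∩ C := by rw [h]; simp
        exact mem_cv.2 (mem_inter.1 this).1
      -- a surviving threat
      have good : ∀ {m w : X} {f e : V}, m ∈ nb N C a → w ∈ C → w ≠ m → N f ∩ C = {m, w} →
          cov N m ∩ F = {f} → cov N w ⊆ F → e ≠ f → (e ∈ cov N w → 3 ≤ (cov N w).card) →
          Threat (cov N) C 3 (F.erase e) := by
        intro m w f e hm hwC hwm hs hc hd hef h3
        refine threat3 (u := m) (w := w) (f := f) (mem_nb.1 hm).1 hwC hwm.symm ?_ (hfw hs) ?_
        · rw [inter_erase, hc]
          exact erase_eq_of_notMem (by simpa using hef)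
        · rw [inter_erase, inter_eq_left.2 hd]
          by_cases he : e ∈ cov N w
          · rw [card_erase_of_mem he]
            have := h3 he
            omega
          · rw [erase_eq_of_notMem he]
            exact hcov w
      refine ⟨a, ha, ?_, ?_, ?_⟩
      · rw [inter_eq_left.2 (cov_sub_alive ha)]
        exact ha3
      · refine threat3 (u := m1) (w := w1) (f := f1) (mem_nb.1 hm1).1 hw1C hw1m.symm hc1
          (hfw hs1) ?_
        rw [inter_eq_left.2 hd1]
        exact hcov w1
      · intro e he
        by_contra hbad
        have bad : ∀ {m w : X} {f : V}, m ∈ nb N C a → w ∈ C → w ≠ m → N f ∩ C = {m, w} →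
            cov N m ∩ F = {f} → cov N w ⊆ F →
            e ∈ cov N w ∧ ((cov N w).card = 2 ∨ e = f) := by
          intro m w f hm hwC hwm hs hc hd
          by_cases hef : e = f
          · subst hef
            exact ⟨hfw hs, Or.inr rfl⟩
          · by_contra h
            apply hbad
            refine good hm hwC hwm hs hc hd hef ?_
            intro hew
            by_contra h3
            exact h ⟨hew, Or.inl (by have := hcov w; omega)⟩
        obtain ⟨b1, c1⟩ := bad hm1 hw1C hw1m hs1 hc1 hd1
        obtain ⟨b2, c2⟩ := bad hm2 hw2C hw2m hs2 hc2 hd2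
        obtain ⟨b3, c3⟩ := bad hm3 hw3C hw3m hs3 hc3 hd3
        -- two of the w's coincide
        have same : ∀ {m m' m'' w w' w'' : X} {f f' f'' : V}, m ∈ nb N C a → m' ∈ nb N C a →
            m ≠ m' → m ≠ m'' → m' ≠ m'' → N f ∩ C = {m, w} → N f' ∩ C = {m', w'} →
            N f'' ∩ C = {m'', w''} → w'' ∉ nb N C a → w'' ≠ m'' → w ≠ m → w ≠ m' →
            e ∈ cov N w → e ∈ cov N w'' → w'' ∈ C → w ∈ C →
            ((cov N w).card = 2 ∨ e = f) → ((cov N w').card = 2 ∨ e = f') → w = w' → False := by
          intro m m' m'' w w' w'' f f' f'' hm hm' h1 h2 h3 hs hs' hs'' hn hwm'' hwm hwm' he1 he2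
            hw''C hwC hc hc' hww
          subst hww
          have hff : f ≠ f' := by
            rintro rfl
            rw [hs] at hs'
            have : m ∈ ({m', w} : Finset X) := by rw [← hs']; simp
            rw [mem_insert, mem_singleton] at this
            rcases this with h | h
            · exact h1 h
            · exact hwm h.symm
          have hdeg : (cov N w).card = 2 := by
            rcases hc with h | h
            · exact h
            · rcases hc' with h' | h'
              · exact h'
              · exact absurd (h.symm.trans h') hff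
          have hcw : cov N w = {f, f'} := by
            symm
            apply eq_of_subset_of_card_le
            · intro x hx
              rw [mem_insert, mem_singleton] at hx
              rcases hx with rfl | rfl
              · exact hfw hs
              · exact hfw hs'
            · rw [card_pair hff, hdeg]
          have hew : w'' ∈ N e ∩ C := mem_inter.2 ⟨mem_cv.1 he2, hw''C⟩
          rw [hcw, mem_insert, mem_singleton] at he1
          have hw''w : w'' = w := by
            rcases he1 with rfl | rfl
            · rw [hs, mem_insert, mem_singleton] at hew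
              rcases hew with h | h
              · subst h; exact absurd hm hn
              · exact h
            · rw [hs', mem_insert, mem_singleton] at hew
              rcases hew with h | h
              · subst h; exact absurd hm' hn
              · exact h
          subst hw''w
          have : f'' ∈ cov N w'' := hfw hs''
          rw [hcw, mem_insert, mem_singleton] at this
          rcases this with rfl | rfl
          · rw [hs] at hs''
            have : m'' ∈ ({m, w''} : Finset X) := by rw [hs'']; simp
            rw [mem_insert, mem_singleton] at this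
            rcases this with h | h
            · exact h2 h.symm
            · exact hwm'' h.symm
          · rw [hs'] at hs''
            have : m'' ∈ ({m', w''} : Finset X) := by rw [hs'']; simp
            rw [mem_insert, mem_singleton] at this
            rcases this with h | h
            · exact h3 h.symm
            · exact hwm'' h.symm
        -- e has only two ends
        have heal : e ∈ alive N C := (mem_sdiff.1 he).1
        obtain ⟨s, t, -, -, -, hst⟩ := hedge e heal
        have inend : ∀ w ∈ C, e ∈ cov N w → w = s ∨ w = t := by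
          intro w hw h
          have : w ∈ N e ∩ C := mem_inter.2 ⟨mem_cv.1 h, hw⟩
          rwa [hst, mem_insert, mem_singleton] at this
        have hcase : w1 = w2 ∨ w1 = w3 ∨ w2 = w3 := by
          rcases inend w1 hw1C b1 with h1 | h1 <;> rcases inend w2 hw2C b2 with h2 | h2 <;>
            rcases inend w3 hw3C b3 with h3 | h3
          · exact Or.inl (h1.trans h2.symm)
          · exact Or.inl (h1.trans h2.symm)
          · exact Or.inr (Or.inl (h1.trans h3.symm))
          · exact Or.inr (Or.inr (h2.trans h3.symm))
          · exact Or.inr (Or.inr (h2.trans h3.symm))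
          · exact Or.inr (Or.inl (h1.trans h3.symm))
          · exact Or.inl (h1.trans h2.symm)
          · exact Or.inl (h1.trans h2.symm)
        rcases hcase with h | h | h
        · exact same hm1 hm2 h12 h13 h23 hs1 hs2 hs3 hw3n hw3m hw1m (h ▸ hw2m) b1 b3 hw3C hw1C
            c1 c2 h
        · exact same hm1 hm3 h13 h12 h23.symm hs1 hs3 hs2 hw2n hw2m hw1m (h ▸ hw3m) b1 b2 hw2C
            hw1C c1 c3 h
        · exact same hm2 hm3 h23 h12.symm h13.symm hs2 hs3 hs1 hw1n hw1m hw2m (h ▸ hw3m) b2 b1
            hw1C hw2C c2 c3 h

end Helper77.TDG
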