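import Mathlib
import Pool.Agent.Helper77_TDG2.Class89b
import Pool.Agent.Helper63_TDG2.SmallDouble
import Pool.Agent.Helper63_TDG2.Class56

set_option autoImplicit false

namespace Pool.Agent.Results.MP_875682_co.NineThirteenths

/-- The selected set `S` totally dominates `x`. -/
def Dominated {V : Type} (G : SimpleGraph V) (S : Finset V) (x : V) : Prop :=
  ∃ v ∈ S, G.Adj v x

/-- After the vertices of `S` have been selected, the vertex `v` may be selected: it totally
dominates some vertex that `S` does not totally dominate. -/
def Legal {V : Type} (G : SimpleGraph V) (S : Finset V) (v : V) : Prop :=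
  ∃ x, G.Adj v x ∧ ¬ Dominated G S x

/-- The game is over: every vertex is totally dominated. -/
def Over {V : Type} (G : SimpleGraph V) (S : Finset V) : Prop :=
  ∀ x, Dominated G S x

/-- `CanEnd G k t S`: from the position where the vertices of `S` have been selected, with
Dominator to move if `t = true` and Staller to move if `t = false`, Dominator has a strategy which
makes the game end after at most `k` further moves. -/
def CanEnd {V : Type} [DecidableEq V] (G : SimpleGraph V) : ℕ → Bool → Finset V → Prop
  | 0, _, S => Over G S
  | k+1, true, S => Over G S ∨ ∃ v, Legal G S v ∧ CanEnd G k false (insert v S)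
  | k+1, false, S => Over G S ∨ ∀ v, Legal G S v → CanEnd G k true (insert v S)

/-- The game total domination number (Dominator moves first): the least `k` such that Dominator
can make the game end after at most `k` moves. -/
noncomputable def gammaTg {V : Type} [DecidableEq V] (G : SimpleGraph V) : ℕ :=
  sInf {k | CanEnd G k true ∅}

section
variable {V : Type} [Fintype V] [DecidableEq V] (G : SimpleGraph V) [DecidableRel G.Adj]

/-- The set of vertices not dominated. -/
def unc (S : Finset V) : Finset V :=
  Finset.univ.filter fun x => ∀ v ∈ S, ¬ G.Adj v x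

lemma mem_unc (S : Finset V) (x : V) : x ∈ unc G S ↔ ¬ Dominated G S x := by
  simp [unc, Dominated]

lemma over_iff (S : Finset V) : Over G S ↔ unc G S = ∅ := by
  rw [Finset.eq_empty_iff_forall_notMem]
  unfold Over
  refine forall_congr' fun x => ?_
  rw [mem_unc, not_not]

lemma legal_iff (S : Finset V) (v : V) :
    Legal G S v ↔ (G.neighborFinset v ∩ unc G S).Nonempty := by
  unfold Legal
  constructor
  · rintro ⟨x, h1, h2⟩
    exact ⟨x, Finset.mem_inter.2 ⟨(G.mem_neighborFinset v x).2 h1, (mem_unc G S x).2 h2⟩⟩
  · rintro ⟨x, hx⟩
    rw [Finset.mem_inter, mem_unc, G.mem_neighborFinset] at hx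
    exact ⟨x, hx⟩

lemma unc_insert (S : Finset V) (v : V) :
    unc G (insert v S) = unc G S \ G.neighborFinset v := by
  ext x
  simp only [unc, Finset.mem_filter, Finset.mem_univ, true_and, Finset.mem_insert,
    forall_eq_or_imp, Finset.mem_sdiff, SimpleGraph.mem_neighborFinset]
  tauto

lemma canEnd_iff (k : ℕ) : ∀ (t : Bool) (S : Finset V),
    CanEnd G k t S ↔ Helper77.TDG.CE (fun v => G.neighborFinset v) k t (unc G S) := by
  induction k with
  | zero =>
    intro t S
    simp only [CanEnd, Helper77.TDG.CE]
    exact over_iff G S
  | succ k ih =>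
    intro t S
    cases t with
    | true =>
      simp only [CanEnd, Helper77.TDG.CE]
      rw [over_iff]
      refine or_congr_right (exists_congr fun v => ?_)
      rw [legal_iff, ih, unc_insert]
    | false =>
      simp only [CanEnd, Helper77.TDG.CE]
      constructor
      · rintro (h | h) v hv
        · rw [over_iff] at h
          rw [h, Finset.inter_empty] at hv
          exact absurd hv Finset.not_nonempty_empty
        · have := h v ((legal_iff G S v).2 hv)
          rw [ih, unc_insert] at this
          exact this
      · intro h
        right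
        intro v hv
        rw [ih, unc_insert]
        exact h v ((legal_iff G S v).1 hv)

lemma cover_two (hδ : ∀ v, 2 ≤ G.degree v) (x : V) :
    2 ≤ (Finset.univ.filter fun v => x ∈ G.neighborFinset v).card := by
  refine (hδ x).trans (le_of_eq ?_)
  unfold SimpleGraph.degree
  congr 1
  ext v
  simp [G.adj_comm]

end

/-- For every finite graph with minimum degree at least two, `39 γ_tg(G) ≤ 27 n + 13`, that is
`γ_tg(G) ≤ (9/13) n + 1/3`. -/
theorem result (V : Type) [Fintype V] [DecidableEq V] (G : SimpleGraph V) [DecidableRel G.Adj]
    (hδ : ∀ v, 2 ≤ G.degree v) :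
    CanEnd G (gammaTg G) true ∅ ∧ 39 * gammaTg G ≤ 27 * Fintype.card V + 13 := by
  have hunc : unc G ∅ = Finset.univ := by
    ext x
    simp [unc]
  have hN := cover_two G hδ
  have hsym : ∀ v x, x ∈ G.neighborFinset v ↔ v ∈ G.neighborFinset x := by
    intro v x
    simp [G.adj_comm]
  have hk : CanEnd G ((27 * Fintype.card V + 13) / 39) true ∅ := by
    rw [canEnd_iff, hunc]
    refine Helper77.TDG.main hsym hN
      (fun C hC h => Helper77.TDG.small_double (fun v => G.neighborFinset v) C hC h)
      (fun C hC h5 h6 hW => Helper77.TDG.class56 (fun v => G.neighborFinset v) C hC hN h5 h6 hW)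
      (fun C hC h8 h9 hW => Helper77.TDG.class89 hN hC h8 h9 hW) _ ?_
    omega
  have hne : {k | CanEnd G k true ∅}.Nonempty := ⟨_, hk⟩
  refine ⟨Nat.sInf_mem hne, ?_⟩
  have hle : gammaTg G ≤ (27 * Fintype.card V + 13) / 39 := Nat.sInf_le hk
  omega

end Pool.Agent.Results.MP_875682_co.NineThirteenths
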